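import Pool.Agent.H630DP.Model

/-! Depth calculus (helper630) -/

open scoped Classical
open Finset Relation

namespace H630DP

variable {I J : Type} {inp : Set (I → Prop)}

theorem MD.mono {d d' : ℕ} {f : I → Prop} (h : MD inp d f) (hd : d ≤ d') : MD inp d' f := by
  induction h generalizing d' with
  | leaf hf => exact MD.leaf hf
  | and _ _ ih1 ih2 =>
    obtain ⟨e, rfl⟩ : ∃ e, d' = e + 1 := ⟨d' - 1, by omega⟩
    exact MD.and (ih1 (by omega)) (ih2 (by omega))
  | or _ _ ih1 ih2 =>
    obtain ⟨e, rfl⟩ : ∃ e, d' = e + 1 := ⟨d' - 1, by omega⟩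
    exact MD.or (ih1 (by omega)) (ih2 (by omega))

theorem MD.congr {d : ℕ} {f g : I → Prop} (h : MD inp d f) (hfg : ∀ x, f x ↔ g x) :
    MD inp d g := by
  have : f = g := funext fun x => propext (hfg x)
  rw [← this]
  exact h

theorem MD.comap {I' : Type} {inp' : Set (I' → Prop)} (φ : I' → I)
    (hφ : ∀ f ∈ inp, (fun x => f (φ x)) ∈ inp') {d : ℕ} {f : I → Prop} (h : MD inp d f) :
    MD inp' d (fun x => f (φ x)) := by
  induction h with
  | leaf hf => exact MD.leaf (hφ _ hf)
  | and _ _ ih1 ih2 => exact MD.and ih1 ih2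
  | or _ _ ih1 ih2 => exact MD.or ih1 ih2

/-- disjunctions of at most `2 ^ k` functions -/
theorem MD.bigor (h0 : (fun _ => False) ∈ inp) {d : ℕ} (k : ℕ) :
    ∀ (s : Finset J) (p : J → I → Prop), s.card ≤ 2 ^ k → (∀ j ∈ s, MD inp d (p j)) →
      MD inp (d + k) (fun x => ∃ j ∈ s, p j x) := by
  induction k with
  | zero =>
    intro s p hs hp
    rcases Nat.le_one_iff_eq_zero_or_eq_one.1 (by simpa using hs) with h | h
    · rw [Finset.card_eq_zero] at h
      subst h
      exact (MD.leaf h0).congr fun x => by simp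
    · obtain ⟨j, rfl⟩ := Finset.card_eq_one.1 h
      exact (hp j (mem_singleton_self j)).congr fun x => by simp
  | succ k ih =>
    intro s p hs hp
    obtain ⟨t, ht, htc⟩ : ∃ t ⊆ s, t.card = min s.card (2 ^ k) :=
      Finset.exists_subset_card_eq (min_le_left _ _)
    have h1 := ih t p (by rw [htc]; exact min_le_right _ _) fun j hj => hp j (ht hj)
    have h2 := ih (s \ t) p (by
      rw [card_sdiff_of_subset ht, htc]
      rw [pow_succ] at hs
      rcases le_total s.card (2 ^ k) with h | h
      · rw [min_eq_left h]; omega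
      · rw [min_eq_right h]; omega) fun j hj => hp j (mem_sdiff.1 hj).1
    refine (MD.or h1 h2).congr fun x => ?_
    constructor
    · rintro (⟨j, hj, h⟩ | ⟨j, hj, h⟩)
      · exact ⟨j, ht hj, h⟩
      · exact ⟨j, (mem_sdiff.1 hj).1, h⟩
    · rintro ⟨j, hj, h⟩
      by_cases hjt : j ∈ t
      · exact Or.inl ⟨j, hjt, h⟩
      · exact Or.inr ⟨j, mem_sdiff.2 ⟨hj, hjt⟩, h⟩

/-- conjunctions of at most `2 ^ k` functions -/
theorem MD.bigand (h1 : (fun _ => True) ∈ inp) {d : ℕ} (k : ℕ) :
    ∀ (s : Finset J) (p : J → I → Prop), s.card ≤ 2 ^ k → (∀ j ∈ s, MD inp d (p j)) →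
      MD inp (d + k) (fun x => ∀ j ∈ s, p j x) := by
  induction k with
  | zero =>
    intro s p hs hp
    rcases Nat.le_one_iff_eq_zero_or_eq_one.1 (by simpa using hs) with h | h
    · rw [Finset.card_eq_zero] at h
      subst h
      exact (MD.leaf h1).congr fun x => by simp
    · obtain ⟨j, rfl⟩ := Finset.card_eq_one.1 h
      exact (hp j (mem_singleton_self j)).congr fun x => by simp
  | succ k ih =>
    intro s p hs hp
    obtain ⟨t, ht, htc⟩ : ∃ t ⊆ s, t.card = min s.card (2 ^ k) :=
      Finset.exists_subset_card_eq (min_le_left _ _)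
    have h1 := ih t p (by rw [htc]; exact min_le_right _ _) fun j hj => hp j (ht hj)
    have h2 := ih (s \ t) p (by
      rw [card_sdiff_of_subset ht, htc]
      rw [pow_succ] at hs
      rcases le_total s.card (2 ^ k) with h | h
      · rw [min_eq_left h]; omega
      · rw [min_eq_right h]; omega) fun j hj => hp j (mem_sdiff.1 hj).1
    refine (MD.and h1 h2).congr fun x => ?_
    constructor
    · rintro ⟨h, h'⟩ j hj
      by_cases hjt : j ∈ t
      · exact h j hjt
      · exact h' j (mem_sdiff.2 ⟨hj, hjt⟩)
    · intro h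
      exact ⟨fun j hj => h j (ht hj), fun j hj => h j (mem_sdiff.1 hj).1⟩

/-- `q` can be reached from `p` in at most `m` steps -/
def within {N : Type} (r : N → N → Prop) : ℕ → N → N → Prop
  | 0, p, q => p = q
  | m + 1, p, q => ∃ u, within r m p u ∧ (u = q ∨ r u q)

theorem within_mono {N : Type} {r : N → N → Prop} {m m' : ℕ} (h : m ≤ m') {p q : N}
    (hp : within r m p q) : within r m' p q := by
  induction h with
  | refl => exact hp
  | step _ ih => exact ⟨q, ih, Or.inl rfl⟩

theorem within_add {N : Type} {r : N → N → Prop} (m m' : ℕ) (p q : N) :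
    within r (m + m') p q ↔ ∃ u, within r m p u ∧ within r m' u q := by
  induction m' generalizing q with
  | zero =>
    constructor
    · intro h
      exact ⟨q, h, rfl⟩
    · rintro ⟨u, h, rfl⟩
      exact h
  | succ m' ih =>
    constructor
    · rintro ⟨v, hv, hq⟩
      obtain ⟨u, h1, h2⟩ := (ih v).1 hv
      exact ⟨u, h1, v, h2, hq⟩
    · rintro ⟨u, h1, v, h2, hq⟩
      exact ⟨v, (ih v).2 ⟨u, h1, h2⟩, hq⟩

theorem reach_of_within {N : Type} {r : N → N → Prop} (m : ℕ) {p q : N} (h : within r m p q) :
    ReflTransGen r p q := by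
  induction m generalizing q with
  | zero =>
    have h' : p = q := h
    rw [h']
  | succ m ih =>
    obtain ⟨u, hu, rfl | hq⟩ := h
    · exact ih hu
    · exact (ih hu).tail hq

/-- every reachable node is reached in fewer than `card N` steps -/
theorem within_of_reach {N : Type} [Fintype N] {r : N → N → Prop} {p q : N}
    (h : ReflTransGen r p q) : within r (Fintype.card N) p q := by
  -- the sets of nodes within `m` steps become stable
  let S : ℕ → Finset N := fun m => univ.filter fun u => within r m p u
  have hmono : ∀ m, S m ⊆ S (m + 1) := fun m u hu =>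
    mem_filter.2 ⟨mem_univ _, within_mono (Nat.le_succ m) (mem_filter.1 hu).2⟩
  have hstab : ∀ m, S (m + 1) = S m → ∀ u, ReflTransGen r p u → u ∈ S m := by
    intro m hm u hu
    induction hu with
    | refl =>
      refine mem_filter.2 ⟨mem_univ _, within_mono (Nat.zero_le m) ?_⟩
      exact (rfl : p = p)
    | tail _ hr ih =>
      rw [← hm]
      exact mem_filter.2 ⟨mem_univ _, _, (mem_filter.1 ih).2, Or.inr hr⟩
  have key : ∀ m, (∃ j ≤ m, S (j + 1) = S j) ∨ m + 1 ≤ (S m).card := by
    intro m
    induction m with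
    | zero =>
      right
      exact Finset.card_pos.2 ⟨p, mem_filter.2 ⟨mem_univ _, (rfl : p = p)⟩⟩
    | succ m ih =>
      rcases ih with ⟨j, hj, h⟩ | h
      · exact Or.inl ⟨j, by omega, h⟩
      · by_cases he : S (m + 1) = S m
        · exact Or.inl ⟨m, by omega, he⟩
        · right
          have : (S m).card < (S (m + 1)).card :=
            Finset.card_lt_card ((hmono m).ssubset_of_ne (Ne.symm he))
          omega
  rcases key (Fintype.card N) with ⟨j, hj, he⟩ | h'
  · exact within_mono hj (mem_filter.1 (hstab j he q h)).2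
  · have := Finset.card_le_univ (S (Fintype.card N))
    omega

/-- reachability by repeated squaring -/
theorem MD.reach {N : Type} [Fintype N] (h0 : (fun _ => False) ∈ inp)
    (h1 : (fun _ => True) ∈ inp) {d k : ℕ} (hk : Fintype.card N ≤ 2 ^ k) (e : N → N → I → Prop)
    (he : ∀ p q, MD inp d (e p q)) (p q : N) :
    MD inp (d + 1 + k * (k + 1)) (fun x => ReflTransGen (fun p q => e p q x) p q) := by
  have key : ∀ j : ℕ, ∀ p q, MD inp (d + 1 + j * (k + 1))
      (fun x => within (fun p q => e p q x) (2 ^ j) p q) := by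
    intro j
    induction j with
    | zero =>
      intro p q
      have h2 : MD inp d (fun _ : I => p = q) := by
        by_cases h : p = q
        · exact (MD.leaf h1).congr fun x => by simp [h]
        · exact (MD.leaf h0).congr fun x => by simp [h]
      refine ((MD.or h2 (he p q)).mono (by omega)).congr fun x => ?_
      constructor
      · rintro (h | h)
        · exact ⟨p, rfl, Or.inl h⟩
        · exact ⟨p, rfl, Or.inr h⟩
      · rintro ⟨u, hu, h⟩
        have hu' : p = u := hu
        subst hu'
        exact h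
    | succ j ih =>
      intro p q
      have h3 : ∀ u ∈ (univ : Finset N), MD inp (d + 1 + j * (k + 1) + 1) (fun x =>
          within (fun p q => e p q x) (2 ^ j) p u ∧ within (fun p q => e p q x) (2 ^ j) u q) :=
        fun u _ => MD.and (ih p u) (ih u q)
      refine ((MD.bigor h0 k univ _ (by rw [card_univ]; exact hk) h3).mono ?_).congr fun x => ?_
      · rw [Nat.succ_mul]
        omega
      · rw [pow_succ, mul_two, within_add]
        simp
  refine (key k p q).congr fun x => ⟨fun h => reach_of_within _ h, fun h => ?_⟩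
  exact within_mono hk (within_of_reach h)

end H630DP
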