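import Pool.Agent.H630SD.Model

/-!
# Depth and Boolean constraint satisfaction: the definitions
-/

open scoped Classical
open Finset

namespace H630DP

open H630SD

/-- `MD inp d f`: the function `f` is computed by a formula of AND and OR gates (fan-in two) of depth
at most `d` with leaves from `inp` -/
inductive MD {I : Type} (inp : Set (I → Prop)) : ℕ → (I → Prop) → Prop
  | leaf {d : ℕ} {f : I → Prop} : f ∈ inp → MD inp d f
  | and {d : ℕ} {f g : I → Prop} : MD inp d f → MD inp d g → MD inp (d + 1) (fun x => f x ∧ g x)
  | or {d : ℕ} {f g : I → Prop} : MD inp d f → MD inp d g → MD inp (d + 1) (fun x => f x ∨ g x)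

/-- the inputs: for each constraint over `V` the bit that tells whether it belongs to the instance,
and the two constants -/
def bits {ι : Type} (ar : ι → ℕ) (V : Type) : Set (Set (Con ar V) → Prop) :=
  {f | (∃ c : Con ar V, f = fun F => c ∈ F) ∨ ∃ p : Prop, f = fun _ => p}

/-- Computations that evaluate formulas of AND and OR gates of depth at most `d` in rounds:
`out f` outputs the value of `f`; `ask w f next` evaluates the `w` formulas `f i` and continues with
a computation that depends on the `w` answers in an arbitrary way (a NOT gate is a round with one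
formula). -/
inductive RT {I : Type} (inp : Set (I → Prop)) (d : ℕ) : Type
  | out (f : I → Prop) (h : MD inp d f) : RT inp d
  | ask (w : ℕ) (f : Fin w → I → Prop) (h : ∀ i, MD inp d (f i))
      (next : (Fin w → Bool) → RT inp d) : RT inp d

/-- the value computed on `x` -/
noncomputable def RT.eval {I : Type} {inp : Set (I → Prop)} {d : ℕ} : RT inp d → I → Prop
  | .out f _, x => f x
  | .ask _ f _ next, x => (next fun i => decide (f i x)).eval x

/-- the maximum over all branches of the product of the numbers `w + 1` over the rounds -/
def RT.cost {I : Type} {inp : Set (I → Prop)} {d : ℕ} : RT inp d → ℕ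
  | .out _ _ => 1
  | .ask w _ _ next => (w + 1) * univ.sup fun a => (next a).cost

/-- the language is closed under one of the operations 0, 1, majority, `x ∧ (y ∨ z)`,
`x ∨ (y ∧ z)` -/
def NEasy {ι : Type} {ar : ι → ℕ} (rel : ∀ i, Set (Fin (ar i) → Bool)) : Prop :=
  Pol rel (fun _ : Fin 1 → Bool => false) ∨ Pol rel (fun _ : Fin 1 → Bool => true) ∨
  Pol rel (fun x : Fin 3 → Bool => (x 0 && x 1) || (x 0 && x 2) || (x 1 && x 2)) ∨
  Pol rel (fun x : Fin 3 → Bool => x 0 && (x 1 || x 2)) ∨
  Pol rel (fun x : Fin 3 → Bool => x 0 || (x 1 && x 2))

end H630DP
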