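import Pool.Agent.H630DP.Calc
import Pool.Agent.H630SD.T1

open scoped Classical
open Finset

namespace H630DP

open H630SD

variable {ι : Type} {ar : ι → ℕ} {rel : ∀ i, Set (Fin (ar i) → Bool)}

theorem dt1_and (hA : Pol rel (fun x : Fin 2 → Bool => x 0 && x 1)) {m : ℕ}
    {g0 g1 : (Fin m → Bool) → Bool} (h0 : Pol rel g0) (h1 : Pol rel g1) :
    Pol rel (fun x => g0 x && g1 x) := by
  have h := t1_comp hA (![g0, g1]) (by
    intro s
    fin_cases s
    · exact h0
    · exact h1)
  exact h

theorem dt1_ends (hA : Pol rel (fun x : Fin 2 → Bool => x 0 && x 1))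
    (h0 : ¬ Pol rel (fun _ : Fin 1 → Bool => false))
    (h1 : ¬ Pol rel (fun _ : Fin 1 → Bool => true))
    {r : ℕ} (f : (Fin r → Bool) → Bool) (hf : Pol rel f) :
    f (fun _ => false) = false ∧ f (fun _ => true) = true := by
  have hg : Pol rel (fun x : Fin 1 → Bool => f fun _ => x 0) :=
    t1_comp hf (fun _ x => x 0) (fun _ => t1_proj 0)
  cases ha : f (fun _ => false) <;> cases hb : f (fun _ => true)
  · exfalso
    apply h0
    have e : (fun x : Fin 1 → Bool => f fun _ => x 0) = fun _ => false := by
      funext x
      cases hx : x 0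
      · exact ha
      · exact hb
    rw [e] at hg
    exact hg
  · exact ⟨rfl, rfl⟩
  · exfalso
    apply h0
    have hn := dt1_and hA (t1_proj (rel := rel) (0 : Fin 1)) hg
    have e : (fun x : Fin 1 → Bool => x 0 && f fun _ => x 0) = fun _ => false := by
      funext x
      cases hx : x 0
      · rfl
      · simp [hb]
    rw [e] at hn
    exact hn
  · exfalso
    apply h1
    have e : (fun x : Fin 1 → Bool => f fun _ => x 0) = fun _ => true := by
      funext x
      cases hx : x 0
      · exact ha
      · exact hb
    rw [e] at hg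
    exact hg

/-- a substitution of the coordinates by conjunctions of three variables -/
def dt1_sub {r : ℕ} (c : Fin r → Bool × Bool) (s : Fin r) (x : Fin 3 → Bool) : Bool :=
  x 0 && ((!(c s).1 || x 1) && (!(c s).2 || x 2))

theorem dt1_sub_pol (hA : Pol rel (fun x : Fin 2 → Bool => x 0 && x 1)) {r : ℕ}
    (c : Fin r → Bool × Bool) (s : Fin r) : Pol rel (dt1_sub c s) := by
  have p0 := t1_proj (rel := rel) (0 : Fin 3)
  have p1 := t1_proj (rel := rel) (1 : Fin 3)
  have p2 := t1_proj (rel := rel) (2 : Fin 3)
  have q : dt1_sub c s = fun x => x 0 && ((!(c s).1 || x 1) && (!(c s).2 || x 2)) := rfl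
  rw [q]
  cases hc1 : (c s).1 <;> cases hc2 : (c s).2
  · have e : (fun x : Fin 3 → Bool => x 0 && ((!false || x 1) && (!false || x 2))) =
        fun x => x 0 := by funext x; simp
    rw [e]; exact p0
  · have e : (fun x : Fin 3 → Bool => x 0 && ((!false || x 1) && (!true || x 2))) =
        fun x => x 0 && x 2 := by funext x; simp
    rw [e]; exact dt1_and hA p0 p2
  · have e : (fun x : Fin 3 → Bool => x 0 && ((!true || x 1) && (!false || x 2))) =
        fun x => x 0 && x 1 := by funext x; simp
    rw [e]; exact dt1_and hA p0 p1
  · have e : (fun x : Fin 3 → Bool => x 0 && ((!true || x 1) && (!true || x 2))) =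
        fun x => x 0 && (x 1 && x 2) := by funext x; simp
    rw [e]; exact dt1_and hA p0 (dt1_and hA p1 p2)

theorem dt1_meet (hA : Pol rel (fun x : Fin 2 → Bool => x 0 && x 1))
    (h0 : ¬ Pol rel (fun _ : Fin 1 → Bool => false))
    (h1 : ¬ Pol rel (fun _ : Fin 1 → Bool => true))
    (hS : ¬ Pol rel (fun x : Fin 3 → Bool => x 0 && (x 1 || x 2)))
    {r : ℕ} (f : (Fin r → Bool) → Bool) (hf : Pol rel f) (u w : Fin r → Bool)
    (hu : f u = true) (hw : f w = true) : f (fun i => u i && w i) = true := by
  by_contra hc
  have hc' : f (fun i => u i && w i) = false := by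
    cases h : f (fun i => u i && w i)
    · rfl
    · exact absurd h hc
  have h11 := (dt1_ends hA h0 h1 f hf).2
  apply hS
  have hk := dt1_and hA (t1_proj (rel := rel) (0 : Fin 3))
    (t1_comp hf (dt1_sub (fun s => (!(w s), !(u s)))) (fun s => dt1_sub_pol hA _ s))
  have e : (fun x : Fin 3 → Bool => x 0 && f fun s => dt1_sub (fun s => (!(w s), !(u s))) s x) =
      fun x => x 0 && (x 1 || x 2) := by
    apply t1_ext3
    intro a b c
    cases a
    · simp
    · cases b <;> cases c
      · have : (fun s => dt1_sub (fun s => (!(w s), !(u s))) s ![true, false, false]) =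
            fun i => u i && w i := by
          funext s
          simp only [dt1_sub]
          cases u s <;> cases w s <;> simp
        simp [this, hc']
      · have : (fun s => dt1_sub (fun s => (!(w s), !(u s))) s ![true, false, true]) = w := by
          funext s
          simp only [dt1_sub]
          cases u s <;> cases w s <;> simp
        simp [this, hw]
      · have : (fun s => dt1_sub (fun s => (!(w s), !(u s))) s ![true, true, false]) = u := by
          funext s
          simp only [dt1_sub]
          cases u s <;> cases w s <;> simp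
        simp [this, hu]
      · have : (fun s => dt1_sub (fun s => (!(w s), !(u s))) s ![true, true, true]) =
            fun _ => true := by
          funext s
          simp only [dt1_sub]
          cases u s <;> cases w s <;> simp
        simp [this, h11]
  rw [e] at hk
  exact hk

theorem dt1_up (hA : Pol rel (fun x : Fin 2 → Bool => x 0 && x 1))
    (h0 : ¬ Pol rel (fun _ : Fin 1 → Bool => false))
    (h1 : ¬ Pol rel (fun _ : Fin 1 → Bool => true))
    (hS : ¬ Pol rel (fun x : Fin 3 → Bool => x 0 && (x 1 || x 2)))
    {r : ℕ} (f : (Fin r → Bool) → Bool) (hf : Pol rel f) (u v : Fin r → Bool)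
    (huv : ∀ i, u i = true → v i = true) (hu : f u = true) : f v = true := by
  by_contra hc
  have hc' : f v = false := by
    cases h : f v
    · rfl
    · exact absurd h hc
  have h11 := (dt1_ends hA h0 h1 f hf).2
  apply hS
  have hk := dt1_and hA (t1_proj (rel := rel) (0 : Fin 3))
    (t1_comp hf (dt1_sub (fun s => (!(u s), !(v s)))) (fun s => dt1_sub_pol hA _ s))
  have hb : ∀ s, dt1_sub (fun s => (!(u s), !(v s))) s ![true, false, false] = u s := by
    intro s
    have := huv s
    simp only [dt1_sub]
    revert this
    cases u s <;> cases v s <;> simp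
  have hb' : ∀ s, dt1_sub (fun s => (!(u s), !(v s))) s ![true, false, true] = u s := by
    intro s
    have := huv s
    simp only [dt1_sub]
    revert this
    cases u s <;> cases v s <;> simp
  have hb'' : ∀ s, dt1_sub (fun s => (!(u s), !(v s))) s ![true, true, false] = v s := by
    intro s
    have := huv s
    simp only [dt1_sub]
    revert this
    cases u s <;> cases v s <;> simp
  have hb''' : ∀ s, dt1_sub (fun s => (!(u s), !(v s))) s ![true, true, true] = true := by
    intro s
    simp only [dt1_sub]
    cases u s <;> cases v s <;> simp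
  have e : (fun x : Fin 3 → Bool => x 0 && f fun s => dt1_sub (fun s => (!(u s), !(v s))) s x) =
      fun x => x 0 && (!(x 1) || x 2) := by
    apply t1_ext3
    intro a b c
    cases a
    · simp
    · cases b <;> cases c
      · simp only [hb]; simp [hu]
      · simp only [hb']; simp [hu]
      · simp only [hb'']; simp [hc']
      · simp only [hb''']; simp [h11]
  rw [e] at hk
  have hk2 := t1_c3 hk (t1_proj (rel := rel) (0 : Fin 3)) hk (t1_proj (rel := rel) (2 : Fin 3))
  have e2 : (fun x : Fin 3 → Bool => (fun x : Fin 3 → Bool => x 0 && (!(x 1) || x 2))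
      ![x 0, (x 0 && (!(x 1) || x 2)), x 2]) = fun x => x 0 && (x 1 || x 2) := by
    apply t1_ext3
    intro a b c
    revert a b c
    decide
  rw [← e2]
  exact hk2

theorem conj_of_pol (hA : Pol rel (fun x : Fin 2 → Bool => x 0 && x 1))
    (h0 : ¬ Pol rel (fun _ : Fin 1 → Bool => false))
    (h1 : ¬ Pol rel (fun _ : Fin 1 → Bool => true))
    (hS : ¬ Pol rel (fun x : Fin 3 → Bool => x 0 && (x 1 || x 2)))
    {r : ℕ} (f : (Fin r → Bool) → Bool) (hf : Pol rel f) :
    ∃ I : Finset (Fin r), I.Nonempty ∧ ∀ x, f x = true ↔ ∀ i ∈ I, x i = true := by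
  have hm : ∀ S : Finset (Fin r → Bool), (∀ x ∈ S, f x = true) →
      f (fun i => decide (∀ x ∈ S, x i = true)) = true := by
    intro S
    induction S using Finset.induction_on with
    | empty =>
      intro _
      have := (dt1_ends hA h0 h1 f hf).2
      simpa using this
    | insert a S ha ih =>
      intro h
      have h2 := dt1_meet hA h0 h1 hS f hf a (fun i => decide (∀ x ∈ S, x i = true))
        (h a (mem_insert_self a S)) (ih fun x hx => h x (mem_insert_of_mem hx))
      refine Eq.trans (congrArg f ?_) h2
      funext i
      rw [Bool.eq_iff_iff]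
      simp
  have hT := hm (univ.filter fun x => f x = true) (fun x hx => (mem_filter.1 hx).2)
  have hI : ∀ i, decide (∀ x ∈ univ.filter (fun x => f x = true), x i = true) = true ↔
      ∀ x, f x = true → x i = true := by
    intro i
    simp
  refine ⟨univ.filter fun i => ∀ x, f x = true → x i = true, ?_, ?_⟩
  · by_contra hne
    rw [Finset.not_nonempty_iff_eq_empty] at hne
    have e : (fun i => decide (∀ x ∈ univ.filter (fun x => f x = true), x i = true)) =
        fun _ : Fin r => false := by
      funext i
      have h2 : i ∉ univ.filter fun i => ∀ x, f x = true → x i = true := by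
        rw [hne]; exact Finset.notMem_empty i
      rw [Bool.eq_false_iff]
      intro h3
      exact h2 (mem_filter.2 ⟨mem_univ i, (hI i).1 h3⟩)
    rw [e, (dt1_ends hA h0 h1 f hf).1] at hT
    exact Bool.false_ne_true hT
  · intro x
    constructor
    · intro hx i hi
      exact (mem_filter.1 hi).2 x hx
    · intro hx
      refine dt1_up hA h0 h1 hS f hf _ x ?_ hT
      intro i hi
      exact hx i (mem_filter.2 ⟨mem_univ i, (hI i).1 hi⟩)

end H630DP
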