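import Pool.Agent.H630DP.Calc
import Pool.Agent.H630SD.T6

/-! T2: majority-closed languages have depth `O(log² n)` (helper121) -/

open scoped Classical
open Finset

namespace H630DP

open H630SD H630VC H630XR

variable {ι : Type} {ar : ι → ℕ} {rel : ∀ i, Set (Fin (ar i) → Bool)}

theorem dt2_F_iff {V : Type} (r : V × Bool → V × Bool → Prop) (A : List (V × Bool))
    (hA : ∀ p, p ∈ A) (p q : V × Bool) : p11_F r A p q ↔ Relation.ReflTransGen r p q := by
  constructor
  · intro hpq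
    exact p11_F_min r (Relation.ReflTransGen r) (fun p => Relation.ReflTransGen.refl)
      (fun p q s h1 h2 => h1.trans h2) (fun p q h1 => Relation.ReflTransGen.single h1) A _ _ hpq
  · intro hpq
    induction hpq with
    | refl => exact p11_F_base _ A p p (Or.inr rfl)
    | tail _ hbc ih =>
      exact p11_F_trans _ A _ _ _ (hA _) ih (p11_F_base _ A _ _ (Or.inl hbc))

theorem dt2_sound {V : Type} [Fintype V] (h : Pol rel
    (fun x : Fin 3 → Bool => (x 0 && x 1) || (x 0 && x 2) || (x 1 && x 2))) (F : Set (Con ar V)) :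
    ¬ Sat rel F ↔ ((∃ c, c ∈ F ∧ rel c.1 = ∅) ∨
      ∃ x : V, Relation.ReflTransGen (t6_E rel F) (x, false) (x, true) ∧
        Relation.ReflTransGen (t6_E rel F) (x, true) (x, false)) := by
  have hA : ∀ p, p ∈ (univ : Finset (V × Bool)).toList := fun p => by
    rw [Finset.mem_toList]; exact Finset.mem_univ p
  rw [t6_sound h F _ hA]
  simp only [dt2_F_iff _ _ hA]

theorem dt2_depth [Fintype ι] (h : Pol rel
    (fun x : Fin 3 → Bool => (x 0 && x 1) || (x 0 && x 2) || (x 1 && x 2))) (n k : ℕ)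
    (hk1 : Fintype.card (Con ar (Fin n)) ≤ 2 ^ k) (hk2 : 2 * n ≤ 2 ^ k) :
    MD (bits ar (Fin n)) (k * (k + 1) + 2 * k + 3) (fun F => ¬ Sat rel F) := by
  have h0 : (fun _ => False) ∈ bits ar (Fin n) := Or.inr ⟨False, rfl⟩
  have h1 : (fun _ => True) ∈ bits ar (Fin n) := Or.inr ⟨True, rfl⟩
  have hleaf : ∀ c : Con ar (Fin n), MD (bits ar (Fin n)) 0 (fun F => c ∈ F) := fun c =>
    MD.leaf (Or.inl ⟨c, rfl⟩)
  have hor : ∀ P : Con ar (Fin n) → Prop,
      MD (bits ar (Fin n)) k (fun F => ∃ c, c ∈ F ∧ P c) := by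
    intro P
    have h2 := MD.bigor h0 k (univ.filter P) (fun c F => c ∈ F)
      ((Finset.card_le_univ _).trans hk1) (fun c _ => hleaf c)
    rw [zero_add] at h2
    refine h2.congr fun F => ?_
    constructor
    · rintro ⟨c, hc, hF⟩
      exact ⟨c, hF, (Finset.mem_filter.1 hc).2⟩
    · rintro ⟨c, hF, hc⟩
      exact ⟨c, Finset.mem_filter.2 ⟨Finset.mem_univ _, hc⟩, hF⟩
  have hedge : ∀ p q : Fin n × Bool, MD (bits ar (Fin n)) k (fun F => t6_E rel F p q) :=
    fun p q => hor (fun c => t6_J rel c p q)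
  have hcard : Fintype.card (Fin n × Bool) ≤ 2 ^ k := by
    rw [Fintype.card_prod, Fintype.card_fin, Fintype.card_bool, mul_comm]
    exact hk2
  have hreach : ∀ p q : Fin n × Bool, MD (bits ar (Fin n)) (k + 1 + k * (k + 1))
      (fun F => Relation.ReflTransGen (t6_E rel F) p q) := fun p q =>
    MD.reach (N := Fin n × Bool) h0 h1 hcard (fun p q F => t6_E rel F p q) hedge p q
  have hx : MD (bits ar (Fin n)) (k + 1 + k * (k + 1) + 1 + k) (fun F =>
      ∃ x ∈ (univ : Finset (Fin n)), (Relation.ReflTransGen (t6_E rel F) (x, false) (x, true) ∧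
        Relation.ReflTransGen (t6_E rel F) (x, true) (x, false))) := by
    refine MD.bigor h0 k univ (fun x F =>
      Relation.ReflTransGen (t6_E rel F) (x, false) (x, true) ∧
        Relation.ReflTransGen (t6_E rel F) (x, true) (x, false)) ?_ ?_
    · rw [Finset.card_univ, Fintype.card_fin]
      omega
    · intro x _
      exact MD.and (hreach _ _) (hreach _ _)
  have hfin := MD.or ((hor (fun c => rel c.1 = ∅)).mono
    (show k ≤ k + 1 + k * (k + 1) + 1 + k by omega)) hx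
  refine (hfin.mono (by omega)).congr fun F => ?_
  rw [dt2_sound h F]
  simp only [Finset.mem_univ, true_and]

theorem depth_maj [Fintype ι] (h : Pol rel
    (fun x : Fin 3 → Bool => (x 0 && x 1) || (x 0 && x 2) || (x 1 && x 2))) :
    ∃ C : ℕ, ∀ n : ℕ, MD (bits ar (Fin n)) (C * (Nat.log 2 (n + 1) + 1) ^ 2)
      (fun F => ¬ Sat rel F) := by
  set R := ∑ i, ar i with hR
  set K := Fintype.card ι with hK
  set B := K + R + 2 with hB
  refine ⟨B * B + 3 * B + 3, fun n => ?_⟩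
  set ℓ := Nat.log 2 (n + 1) + 1 with hℓ
  have hℓ1 : 1 ≤ ℓ := by omega
  have hn : n + 1 ≤ 2 ^ ℓ := (Nat.lt_pow_succ_log_self (by norm_num) (n + 1)).le
  have hk1 : Fintype.card (Con ar (Fin n)) ≤ 2 ^ (B * ℓ) := by
    refine (t6_card (ar := ar) n).trans ?_
    calc K * (n + 1) ^ R ≤ 2 ^ K * (2 ^ ℓ) ^ R :=
          Nat.mul_le_mul (Nat.lt_two_pow_self).le (Nat.pow_le_pow_left hn R)
      _ = 2 ^ (K + ℓ * R) := by rw [← pow_mul, ← pow_add]
      _ ≤ 2 ^ (B * ℓ) := by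
          apply Nat.pow_le_pow_right (by norm_num)
          have : K * 1 ≤ K * ℓ := Nat.mul_le_mul_left _ hℓ1
          have h2 : B * ℓ = K * ℓ + ℓ * R + 2 * ℓ := by rw [hB]; ring
          omega
  have hk2 : 2 * n ≤ 2 ^ (B * ℓ) := by
    calc 2 * n ≤ 2 * 2 ^ ℓ := by omega
      _ = 2 ^ (1 + ℓ) := by rw [pow_add 2 1 ℓ, pow_one]
      _ ≤ 2 ^ (B * ℓ) := by
          apply Nat.pow_le_pow_right (by norm_num)
          have h2 : 2 * ℓ ≤ B * ℓ := Nat.mul_le_mul_right _ (by omega)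
          omega
  refine (dt2_depth h n (B * ℓ) hk1 hk2).mono ?_
  have h3 : B * ℓ ≤ B * ℓ ^ 2 := Nat.mul_le_mul_left _ (by nlinarith)
  have h4 : 1 ≤ ℓ ^ 2 := Nat.one_le_pow _ _ hℓ1
  calc B * ℓ * (B * ℓ + 1) + 2 * (B * ℓ) + 3 = B * B * ℓ ^ 2 + 3 * (B * ℓ) + 3 := by ring
    _ ≤ B * B * ℓ ^ 2 + 3 * (B * ℓ ^ 2) + 3 * ℓ ^ 2 := by omega
    _ = (B * B + 3 * B + 3) * ℓ ^ 2 := by ring

end H630DP
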