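import Pool.Agent.H630DP.Calc
import Pool.Agent.H630SD.T3

/-! # T3: languages closed under x and (y or z) have depth log squared (helper227) -/

open scoped Classical
open Finset
namespace H630DP
open H630SD
variable {ι : Type} {ar : ι → ℕ} {rel : ∀ i, Set (Fin (ar i) → Bool)}

/-- forced units -/
def dt3_U (rel : ∀ i, Set (Fin (ar i) → Bool)) {V : Type} (v : V) (F : Set (Con ar V)) : Prop :=
  ∃ c ∈ F, ∃ j, c.2 j = v ∧ ∀ t ∈ rel c.1, t j = true

/-- forced implications -/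
def dt3_e (rel : ∀ i, Set (Fin (ar i) → Bool)) {V : Type} (p q : V) (F : Set (Con ar V)) : Prop :=
  ∃ c ∈ F, ∃ j j', c.2 j = p ∧ c.2 j' = q ∧ ∀ t ∈ rel c.1, t j = true → t j' = true

/-- forced positions -/
def dt3_T (rel : ∀ i, Set (Fin (ar i) → Bool)) {V : Type} (v : V) (F : Set (Con ar V)) : Prop :=
  ∃ u, dt3_U rel u F ∧ Relation.ReflTransGen (fun p q => dt3_e rel p q F) u v

theorem dt3_T_tail {V : Type} {F : Set (Con ar V)} {u v : V} (h : dt3_T rel u F)
    (he : dt3_e rel u v F) : dt3_T rel v F := by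
  obtain ⟨w, hw, hr⟩ := h
  exact ⟨w, hw, hr.tail he⟩

theorem dt3_sound {V : Type} {F : Set (Con ar V)} {x : V → Bool}
    (hx : ∀ c ∈ F, (fun j => x (c.2 j)) ∈ rel c.1) {v : V} (h : dt3_T rel v F) : x v = true := by
  obtain ⟨w, ⟨c, hc, j, hj, ht⟩, hr⟩ := h
  have h0 : x w = true := by
    have := ht _ (hx c hc)
    rw [← hj]
    exact this
  induction hr with
  | refl => exact h0
  | tail _ he ih =>
    obtain ⟨c', hc', j1, j2, h1, h2, h3⟩ := he
    have := h3 _ (hx c' hc') (by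
      show x (c'.2 j1) = true
      rw [h1]
      exact ih)
    rw [← h2]
    exact this

/-- the separating tuples -/
theorem dt3_sep {n : ℕ} {R : Set (Fin n → Bool)}
    (hop : ∀ a ∈ R, ∀ b ∈ R, ∀ c ∈ R, (fun j => a j && (b j || c j)) ∈ R)
    (S : Finset (Fin n)) (m : Fin n → Bool) (hm : m ∈ R) (hmS : ∀ s ∈ S, m s = true)
    (j : Fin n) (h0 : ∃ t ∈ R, t j = false)
    (hs : ∀ s ∈ S, ∃ t ∈ R, t s = true ∧ t j = false) :
    ∃ u ∈ R, (∀ s ∈ S, u s = true) ∧ u j = false := by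
  have key : ∀ S' : Finset (Fin n), S' ⊆ S → ∃ u ∈ R, (∀ s ∈ S', u s = true) ∧ u j = false := by
    intro S'
    induction S' using Finset.induction_on with
    | empty =>
      intro _
      obtain ⟨t, ht, htj⟩ := h0
      exact ⟨t, ht, fun s hs' => absurd hs' (Finset.notMem_empty s), htj⟩
    | insert a S'' _ ih =>
      intro hsub
      obtain ⟨u, hu, huS, huj⟩ := ih (fun x hx => hsub (Finset.mem_insert_of_mem hx))
      obtain ⟨t, ht, hta, htj⟩ := hs a (hsub (Finset.mem_insert_self a S''))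
      refine ⟨fun i => m i && (u i || t i), hop m hm u hu t ht, fun s hs' => ?_, ?_⟩
      · have h1 : m s = true := hmS s (hsub hs')
        rcases Finset.mem_insert.1 hs' with h | h
        · simp only
          rw [h1, h, hta, Bool.or_true, Bool.and_true]
        · simp only
          rw [h1, huS s h, Bool.true_or, Bool.and_true]
      · simp only
        rw [huj, htj, Bool.or_false, Bool.and_false]
  exact key S (Finset.Subset.refl S)

theorem dt3_meet {n : ℕ} {R : Set (Fin n → Bool)}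
    (hop : ∀ a ∈ R, ∀ b ∈ R, ∀ c ∈ R, (fun j => a j && (b j || c j)) ∈ R)
    (S : Finset (Fin n)) (m : Fin n → Bool) (hm : m ∈ R) (hmS : ∀ s ∈ S, m s = true)
    (h : ∀ j, j ∉ S → ∃ u ∈ R, (∀ s ∈ S, u s = true) ∧ u j = false) :
    (fun j => decide (j ∈ S)) ∈ R := by
  have key : ∀ D : Finset (Fin n), (∀ j ∈ D, j ∉ S) →
      ∃ u ∈ R, (∀ s ∈ S, u s = true) ∧ ∀ j ∈ D, u j = false := by
    intro D
    induction D using Finset.induction_on with
    | empty => exact fun _ => ⟨m, hm, hmS, fun j hj => absurd hj (Finset.notMem_empty j)⟩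
    | insert a D' _ ih =>
      intro hD
      obtain ⟨u, hu, huS, huD⟩ := ih (fun x hx => hD x (Finset.mem_insert_of_mem hx))
      obtain ⟨t, ht, htS, hta⟩ := h a (hD a (Finset.mem_insert_self a D'))
      refine ⟨fun i => u i && (t i || t i), hop u hu t ht t ht, fun s hs => ?_, fun j hj => ?_⟩
      · simp only
        rw [huS s hs, htS s hs, Bool.true_or, Bool.and_true]
      · simp only
        rcases Finset.mem_insert.1 hj with h' | h'
        · rw [h', hta, Bool.or_false, Bool.and_false]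
        · rw [huD j h', Bool.false_and]
  obtain ⟨u, hu, huS, huD⟩ := key (univ.filter fun j => j ∉ S) (fun j hj => (Finset.mem_filter.1 hj).2)
  have e : (fun j => decide (j ∈ S)) = u := by
    funext j
    by_cases hj : j ∈ S
    · rw [huS j hj]
      exact decide_eq_true hj
    · rw [huD j (Finset.mem_filter.2 ⟨Finset.mem_univ _, hj⟩)]
      exact decide_eq_false hj
  rw [e]
  exact hu

theorem dt3_claim (h : Pol rel (fun x : Fin 3 → Bool => x 0 && (x 1 || x 2))) {V : Type}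
    (F : Set (Con ar V)) : ¬ Sat rel F ↔ ∃ c ∈ F, ∃ S : Finset (Fin (ar c.1)),
      (¬ ∃ t ∈ rel c.1, ∀ j ∈ S, t j = true) ∧ ∀ j ∈ S, dt3_T rel (c.2 j) F := by
  constructor
  · intro hF
    by_contra hcon
    apply hF
    refine ⟨fun v => decide (dt3_T rel v F), fun c hc => ?_⟩
    have hop : ∀ a ∈ rel c.1, ∀ b ∈ rel c.1, ∀ d ∈ rel c.1,
        (fun j => a j && (b j || d j)) ∈ rel c.1 := by
      intro a ha b hb d hd
      have := h c.1 ![a, b, d] (fun s => by
        refine Fin.cases ?_ (fun s => ?_) s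
        · exact ha
        · refine Fin.cases ?_ (fun s => ?_) s
          · exact hb
          · refine Fin.cases ?_ (fun s => ?_) s
            · exact hd
            · exact s.elim0)
      exact this
    let S : Finset (Fin (ar c.1)) := univ.filter fun j => dt3_T rel (c.2 j) F
    have hS : ∀ j, j ∈ S ↔ dt3_T rel (c.2 j) F := fun j => by
      rw [Finset.mem_filter]
      exact ⟨fun h => h.2, fun h => ⟨Finset.mem_univ _, h⟩⟩
    have hm : ∃ t ∈ rel c.1, ∀ j ∈ S, t j = true := by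
      by_contra hno
      exact hcon ⟨c, hc, S, hno, fun j hj => (hS j).1 hj⟩
    obtain ⟨m, hm, hmS⟩ := hm
    have hmeet := dt3_meet hop S m hm hmS (fun j hj => by
      have hjT : ¬ dt3_T rel (c.2 j) F := fun h' => hj ((hS j).2 h')
      refine dt3_sep hop S m hm hmS j ?_ ?_
      · by_contra hno
        apply hjT
        refine ⟨c.2 j, ⟨c, hc, j, rfl, fun t ht => ?_⟩, Relation.ReflTransGen.refl⟩
        by_contra hf
        exact hno ⟨t, ht, Bool.eq_false_iff.2 hf⟩
      · intro s hs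
        by_contra hno
        apply hjT
        refine dt3_T_tail ((hS s).1 hs) ⟨c, hc, s, j, rfl, rfl, fun t ht hts => ?_⟩
        by_contra hf
        exact hno ⟨t, ht, hts, Bool.eq_false_iff.2 hf⟩)
    have e : (fun j => decide (dt3_T rel (c.2 j) F)) = fun j => decide (j ∈ S) := by
      funext j
      by_cases hj : j ∈ S
      · rw [decide_eq_true hj, decide_eq_true ((hS j).1 hj)]
      · rw [decide_eq_false hj, decide_eq_false fun h' => hj ((hS j).2 h')]
    show (fun j => decide (dt3_T rel (c.2 j) F)) ∈ rel c.1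
    rw [e]
    exact hmeet
  · rintro ⟨c, hc, S, hno, hS⟩ ⟨x, hx⟩
    exact hno ⟨_, hx c hc, fun j hj => dt3_sound hx (hS j hj)⟩

theorem dt3_zero (n : ℕ) : (fun _ : Set (Con ar (Fin n)) => False) ∈ bits ar (Fin n) :=
  Or.inr ⟨False, rfl⟩

theorem dt3_one (n : ℕ) : (fun _ : Set (Con ar (Fin n)) => True) ∈ bits ar (Fin n) :=
  Or.inr ⟨True, rfl⟩

/-- disjunctions over the constraints with a fixed property -/
theorem dt3_or [Fintype ι] {n k : ℕ} (hk : Fintype.card (Con ar (Fin n)) ≤ 2 ^ k)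
    (p : Con ar (Fin n) → Prop) :
    MD (bits ar (Fin n)) k (fun F => ∃ c ∈ F, p c) := by
  have h1 := MD.bigor (inp := bits ar (Fin n)) (dt3_zero n) (d := 0) k
    (univ.filter p) (fun c F => c ∈ F) ((Finset.card_le_univ _).trans hk)
    (fun c _ => MD.leaf (Or.inl ⟨c, rfl⟩))
  rw [Nat.zero_add] at h1
  refine h1.congr fun F => ?_
  constructor
  · rintro ⟨c, hc, hcF⟩
    exact ⟨c, hcF, (Finset.mem_filter.1 hc).2⟩
  · rintro ⟨c, hcF, hc⟩
    exact ⟨c, Finset.mem_filter.2 ⟨Finset.mem_univ _, hc⟩, hcF⟩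

theorem dt3_depth_T [Fintype ι] {n k : ℕ} (hk : Fintype.card (Con ar (Fin n)) ≤ 2 ^ k)
    (hn : n ≤ 2 ^ k) (v : Fin n) :
    MD (bits ar (Fin n)) (k + 1 + k * (k + 1) + 1 + k) (fun F => dt3_T rel v F) := by
  have hU : ∀ u : Fin n, MD (bits ar (Fin n)) k (fun F => dt3_U rel u F) := fun u =>
    dt3_or hk (fun c => ∃ j, c.2 j = u ∧ ∀ t ∈ rel c.1, t j = true)
  have he : ∀ p q : Fin n, MD (bits ar (Fin n)) k (fun F => dt3_e rel p q F) := fun p q =>
    dt3_or hk (fun c => ∃ j j', c.2 j = p ∧ c.2 j' = q ∧ ∀ t ∈ rel c.1, t j = true → t j' = true)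
  have hr : ∀ u : Fin n, MD (bits ar (Fin n)) (k + 1 + k * (k + 1))
      (fun F => Relation.ReflTransGen (fun p q => dt3_e rel p q F) u v) := fun u =>
    MD.reach (dt3_zero n) (dt3_one n) (by rw [Fintype.card_fin]; exact hn)
      (fun p q F => dt3_e rel p q F) he u v
  have h3 := MD.bigor (inp := bits ar (Fin n)) (dt3_zero n) (d := k + 1 + k * (k + 1) + 1) k
    (univ : Finset (Fin n))
    (fun u F => dt3_U rel u F ∧ Relation.ReflTransGen (fun p q => dt3_e rel p q F) u v)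
    (by rw [Finset.card_univ, Fintype.card_fin]; exact hn)
    (fun u _ => MD.and ((hU u).mono (by omega)) (hr u))
  refine h3.congr fun F => ?_
  constructor
  · rintro ⟨u, _, h⟩
    exact ⟨u, h⟩
  · rintro ⟨u, h⟩
    exact ⟨u, Finset.mem_univ _, h⟩

theorem dt3_depth [Fintype ι] (h : Pol rel (fun x : Fin 3 → Bool => x 0 && (x 1 || x 2)))
    {n k A : ℕ} (hA : ∀ i, ar i ≤ A) (hk : Fintype.card (Con ar (Fin n)) * 2 ^ A ≤ 2 ^ k)
    (hn : n ≤ 2 ^ k) (hAk : A ≤ k) :
    MD (bits ar (Fin n)) (k ^ 2 + 5 * k + 3) (fun F => ¬ Sat rel F) := by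
  have hk1 : Fintype.card (Con ar (Fin n)) ≤ 2 ^ k :=
    le_trans (Nat.le_mul_of_pos_right _ (by positivity)) hk
  have hT := fun v => dt3_depth_T (rel := rel) hk1 hn v
  have hS : ∀ p : (Σ c : Con ar (Fin n), Finset (Fin (ar c.1))),
      MD (bits ar (Fin n)) (k + 1 + k * (k + 1) + 1 + k + k + 1)
        (fun F => p.1 ∈ F ∧ ∀ j ∈ p.2, dt3_T rel (p.1.2 j) F) := by
    intro p
    refine MD.and (MD.leaf (Or.inl ⟨p.1, rfl⟩)) ?_
    refine MD.bigand (dt3_one n) k p.2 (fun j F => dt3_T rel (p.1.2 j) F) ?_ (fun j _ => hT _)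
    calc p.2.card ≤ ar p.1.1 := by
          have := Finset.card_le_univ p.2
          rwa [Fintype.card_fin] at this
      _ ≤ k := (hA _).trans hAk
      _ ≤ 2 ^ k := Nat.lt_two_pow_self.le
  have hcard : Fintype.card (Σ c : Con ar (Fin n), Finset (Fin (ar c.1))) ≤ 2 ^ k := by
    refine le_trans ?_ hk
    rw [Fintype.card_sigma]
    have h1 : ∀ c ∈ (univ : Finset (Con ar (Fin n))),
        Fintype.card (Finset (Fin (ar c.1))) ≤ 2 ^ A := by
      intro c _
      rw [Fintype.card_finset, Fintype.card_fin]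
      exact Nat.pow_le_pow_right (by norm_num) (hA _)
    have := Finset.sum_le_card_nsmul univ _ _ h1
    rwa [smul_eq_mul, Finset.card_univ] at this
  have h4 := MD.bigor (inp := bits ar (Fin n)) (dt3_zero n)
    (d := k + 1 + k * (k + 1) + 1 + k + k + 1) k
    (univ.filter fun p : (Σ c : Con ar (Fin n), Finset (Fin (ar c.1))) =>
      ¬ ∃ t ∈ rel p.1.1, ∀ j ∈ p.2, t j = true)
    (fun p F => p.1 ∈ F ∧ ∀ j ∈ p.2, dt3_T rel (p.1.2 j) F)
    ((Finset.card_le_univ _).trans hcard) (fun p _ => hS p)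
  refine (h4.mono ?_).congr fun F => ?_
  · nlinarith
  · rw [dt3_claim h F]
    constructor
    · rintro ⟨p, hp, hpF, hpS⟩
      exact ⟨p.1, hpF, p.2, (Finset.mem_filter.1 hp).2, hpS⟩
    · rintro ⟨c, hcF, S, hno, hSS⟩
      exact ⟨⟨c, S⟩, Finset.mem_filter.2 ⟨Finset.mem_univ _, hno⟩, hcF, hSS⟩

theorem depth_s10 [Fintype ι] (h : Pol rel (fun x : Fin 3 → Bool => x 0 && (x 1 || x 2))) :
    ∃ C : ℕ, ∀ n : ℕ, MD (bits ar (Fin n)) (C * (Nat.log 2 (n + 1) + 1) ^ 2)
      (fun F => ¬ Sat rel F) := by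
  obtain ⟨A', hA'⟩ := t3_card (ar := ar)
  obtain ⟨A, hA⟩ : ∃ A : ℕ, ∀ i, ar i ≤ A :=
    ⟨∑ i, ar i, fun i => Finset.single_le_sum (f := ar) (fun _ _ => Nat.zero_le _) (Finset.mem_univ i)⟩
  set B : ℕ := Fintype.card ι + A' + A + 1 with hB
  refine ⟨B ^ 2 + 5 * B + 3, fun n => ?_⟩
  set l : ℕ := Nat.log 2 (n + 1) + 1 with hl
  have hl1 : 1 ≤ l := Nat.succ_le_succ (Nat.zero_le _)
  have hn : n + 1 ≤ 2 ^ l := (Nat.lt_pow_succ_log_self (by norm_num) (n + 1)).le
  have hBl : l ≤ B * l := Nat.le_mul_of_pos_left _ (by omega)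
  have hk : Fintype.card (Con ar (Fin n)) * 2 ^ A ≤ 2 ^ (B * l) := by
    calc Fintype.card (Con ar (Fin n)) * 2 ^ A
        ≤ (Fintype.card ι * (n + 1) ^ A') * 2 ^ A := Nat.mul_le_mul_right _ (hA' n)
      _ ≤ (2 ^ Fintype.card ι * (2 ^ l) ^ A') * 2 ^ A := by
          apply Nat.mul_le_mul_right
          exact Nat.mul_le_mul Nat.lt_two_pow_self.le (Nat.pow_le_pow_left hn _)
      _ = 2 ^ (Fintype.card ι + l * A' + A) := by
          rw [← pow_mul, ← pow_add, ← pow_add]
      _ ≤ 2 ^ (B * l) := by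
          apply Nat.pow_le_pow_right (by norm_num)
          have h1 : Fintype.card ι ≤ Fintype.card ι * l := Nat.le_mul_of_pos_right _ hl1
          have h2 : A ≤ A * l := Nat.le_mul_of_pos_right _ hl1
          have h3 : B * l = Fintype.card ι * l + l * A' + A * l + l := by
            rw [hB]; ring
          omega
  have hnk : n ≤ 2 ^ (B * l) :=
    le_trans (le_trans (Nat.le_succ n) hn) (Nat.pow_le_pow_right (by norm_num) hBl)
  have hAk : A ≤ B * l :=
    le_trans (by omega : A ≤ B) (Nat.le_mul_of_pos_right _ hl1)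
  refine (dt3_depth h hA hk hnk hAk).mono ?_
  have h1 : B * l ≤ B * l ^ 2 := Nat.mul_le_mul_left _ (Nat.le_self_pow (by norm_num) l)
  have h2 : 1 ≤ l ^ 2 := Nat.one_le_pow _ _ hl1
  calc (B * l) ^ 2 + 5 * (B * l) + 3 ≤ B ^ 2 * l ^ 2 + 5 * (B * l ^ 2) + 3 * l ^ 2 := by
        rw [mul_pow]
        omega
    _ = (B ^ 2 + 5 * B + 3) * l ^ 2 := by ring

end H630DP
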