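import Pool.Agent.H630DP.Calc
import Pool.Agent.H630SD.T3

/-! # T4: duality and constants, depth version (helper99) -/

open scoped Classical
open Finset
namespace H630DP
open H630SD
variable {ι : Type} {ar : ι → ℕ} {rel : ∀ i, Set (Fin (ar i) → Bool)}

theorem dt4_dual_pol (h : Pol rel (fun x : Fin 3 → Bool => x 0 || (x 1 && x 2))) :
    Pol (t3_dual rel) (fun x : Fin 3 → Bool => x 0 && (x 1 || x 2)) := by
  intro i t ht
  show (fun j => !(t 0 j && (t 1 j || t 2 j))) ∈ rel i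
  have h1 := h i (fun s j => !t s j) (fun s => ht s)
  have h2 : (fun j => !(t 0 j && (t 1 j || t 2 j))) =
      fun j => (!t 0 j || (!t 1 j && !t 2 j)) := by
    funext j
    rw [Bool.not_and, Bool.not_or]
  rw [h2]
  exact h1

theorem depth_s00 [Fintype ι] (hT3 : ∀ rel' : ∀ i, Set (Fin (ar i) → Bool),
      Pol rel' (fun x : Fin 3 → Bool => x 0 && (x 1 || x 2)) →
      ∃ C : ℕ, ∀ n : ℕ, MD (bits ar (Fin n)) (C * (Nat.log 2 (n + 1) + 1) ^ 2)
        (fun F => ¬ Sat rel' F))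
    (h : Pol rel (fun x : Fin 3 → Bool => x 0 || (x 1 && x 2))) :
    ∃ C : ℕ, ∀ n : ℕ, MD (bits ar (Fin n)) (C * (Nat.log 2 (n + 1) + 1) ^ 2)
      (fun F => ¬ Sat rel F) := by
  obtain ⟨C, hC⟩ := hT3 (t3_dual rel) (dt4_dual_pol h)
  exact ⟨C, fun n => (hC n).congr fun F => not_congr (t3_dual_sat F)⟩

theorem depth_const [Fintype ι] (b : Bool) (h : Pol rel (fun _ : Fin 1 → Bool => b)) :
    ∃ C : ℕ, ∀ n : ℕ, MD (bits ar (Fin n)) (C * (Nat.log 2 (n + 1) + 1) ^ 2)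
      (fun F => ¬ Sat rel F) := by
  obtain ⟨A, hA⟩ := t3_card (ar := ar)
  refine ⟨Fintype.card ι + A, fun n => ?_⟩
  set L : ℕ := Nat.log 2 (n + 1) with hL
  set K : ℕ := Fintype.card ι with hK
  set s : Finset (Con ar (Fin n)) := univ.filter (fun c => rel c.1 = ∅) with hs
  have h0 : (fun _ : Set (Con ar (Fin n)) => False) ∈ bits ar (Fin n) := Or.inr ⟨False, rfl⟩
  have hcard : s.card ≤ 2 ^ (K + A * (L + 1)) := by
    have h1 : s.card ≤ Fintype.card (Con ar (Fin n)) := Finset.card_le_univ s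
    have h2 : K ≤ 2 ^ K := Nat.lt_two_pow_self.le
    have h3 : n + 1 ≤ 2 ^ (L + 1) := (Nat.lt_pow_succ_log_self (by norm_num) (n + 1)).le
    calc s.card ≤ K * (n + 1) ^ A := h1.trans (hA n)
      _ ≤ 2 ^ K * (2 ^ (L + 1)) ^ A := Nat.mul_le_mul h2 (Nat.pow_le_pow_left h3 A)
      _ = 2 ^ (K + A * (L + 1)) := by
          rw [← pow_mul, pow_add, Nat.mul_comm (L + 1) A]
  have hmain := MD.bigor (inp := bits ar (Fin n)) h0 (d := 0) (K + A * (L + 1)) s
    (fun c F => c ∈ F) hcard (fun c _ => MD.leaf (Or.inl ⟨c, rfl⟩))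
  refine (hmain.mono ?_).congr fun F => ?_
  · have h1 : L + 1 ≤ (L + 1) ^ 2 := by nlinarith
    have h2 : 1 ≤ (L + 1) ^ 2 := Nat.one_le_pow _ _ (Nat.succ_pos L)
    calc 0 + (K + A * (L + 1)) ≤ K * (L + 1) ^ 2 + A * (L + 1) ^ 2 := by
          have h3 := Nat.mul_le_mul_left K h2
          have h4 := Nat.mul_le_mul_left A h1
          omega
      _ = (K + A) * (L + 1) ^ 2 := by ring
  · rw [t3_unsat b h F]
    constructor
    · rintro ⟨c, hc, hcF⟩
      exact ⟨c, (Finset.mem_filter.1 hc).2, hcF⟩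
    · rintro ⟨c, hc, hcF⟩
      exact ⟨c, Finset.mem_filter.2 ⟨Finset.mem_univ _, hc⟩, hcF⟩

end H630DP
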