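import Pool.Agent.H630DP.Calc
import Pool.Agent.H534R2.GenFinal

/-!
# Formulas are small directed networks (helper226)
-/

open scoped Classical
open Finset

namespace H630DP
open H630SD H534R2.Gen
open Relation

/-- an edge of a network on an arbitrary node type -/
def dt5_pass {X W : Type} (link : W → W → Prop) (wire : W → W → X → Prop) (v : X → Prop)
    (a b : W) : Prop := link a b ∨ ∃ x, wire a b x ∧ v x

/-- directed network on the node type `W` -/
noncomputable def dt5_ofType {X W : Type} [Fintype W] (s t : W) (link : W → W → Prop)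
    (wire : W → W → X → Prop) : DNet X where
  size := Fintype.card W
  start := Fintype.equivFin W s
  acc := Fintype.equivFin W t
  link a b := link ((Fintype.equivFin W).symm a) ((Fintype.equivFin W).symm b)
  wire a b := wire ((Fintype.equivFin W).symm a) ((Fintype.equivFin W).symm b)

theorem dt5_equiv {α β : Type} (e : α ≃ β) (r : α → α → Prop) (x y : α) :
    ReflTransGen (fun a b : β => r (e.symm a) (e.symm b)) (e x) (e y) ↔ ReflTransGen r x y := by
  constructor
  · intro h
    have h2 := ReflTransGen.lift (p := r) e.symm (fun a b hab => hab) _ _ h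
    have h3 : ReflTransGen r (e.symm (e x)) (e.symm (e y)) := h2
    rwa [e.symm_apply_apply, e.symm_apply_apply] at h3
  · intro h
    exact ReflTransGen.lift (p := fun a b : β => r (e.symm a) (e.symm b)) e
      (fun a b hab => by
        show r (e.symm (e a)) (e.symm (e b))
        rw [e.symm_apply_apply, e.symm_apply_apply]; exact hab) _ _ h

theorem dt5_ofType_accepts {X W : Type} [Fintype W] (s t : W) (link : W → W → Prop)
    (wire : W → W → X → Prop) (v : X → Prop) : (dt5_ofType s t link wire).Accepts v ↔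
      ReflTransGen (dt5_pass link wire v) s t :=
  dt5_equiv (Fintype.equivFin W) (dt5_pass link wire v) s t

/-- link of the series composition -/
def dt5_sl {W1 W2 : Type} (t1 : W1) (s2 : W2) (l1 : W1 → W1 → Prop) (l2 : W2 → W2 → Prop) :
    W1 ⊕ W2 → W1 ⊕ W2 → Prop
  | .inl a, .inl b => l1 a b
  | .inr a, .inr b => l2 a b
  | .inl a, .inr b => a = t1 ∧ b = s2
  | .inr _, .inl _ => False

/-- wires of the disjoint union -/
def dt5_sw {X W1 W2 : Type} (l1 : W1 → W1 → X → Prop) (l2 : W2 → W2 → X → Prop) :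
    W1 ⊕ W2 → W1 ⊕ W2 → X → Prop
  | .inl a, .inl b => l1 a b
  | .inr a, .inr b => l2 a b
  | .inl _, .inr _ => fun _ => False
  | .inr _, .inl _ => fun _ => False

theorem dt5_and {X W1 W2 : Type} (s1 t1 : W1) (s2 t2 : W2) (l1 : W1 → W1 → Prop)
    (l2 : W2 → W2 → Prop) (w1 : W1 → W1 → X → Prop) (w2 : W2 → W2 → X → Prop) (v : X → Prop) :
    ReflTransGen (dt5_pass (dt5_sl t1 s2 l1 l2) (dt5_sw w1 w2) v) (Sum.inl s1) (Sum.inr t2) ↔
      ReflTransGen (dt5_pass l1 w1 v) s1 t1 ∧ ReflTransGen (dt5_pass l2 w2 v) s2 t2 := by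
  constructor
  · intro h
    have key : ∀ c : W1 ⊕ W2,
        ReflTransGen (dt5_pass (dt5_sl t1 s2 l1 l2) (dt5_sw w1 w2) v) (Sum.inl s1) c →
        (∀ a, c = Sum.inl a → ReflTransGen (dt5_pass l1 w1 v) s1 a) ∧
        (∀ b, c = Sum.inr b → ReflTransGen (dt5_pass l1 w1 v) s1 t1 ∧
          ReflTransGen (dt5_pass l2 w2 v) s2 b) := by
      intro c hc
      induction hc with
      | refl =>
        refine ⟨fun a ha => ?_, fun b hb => (by cases hb)⟩
        cases ha
        exact ReflTransGen.refl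
      | @tail b c _ hbc ih =>
        rcases b with b | b <;> rcases c with c | c
        · refine ⟨fun a ha => ?_, fun b hb => (by cases hb)⟩
          cases ha
          exact (ih.1 b rfl).tail hbc
        · refine ⟨fun a ha => (by cases ha), fun b' hb => ?_⟩
          cases hb
          rcases hbc with h1 | ⟨x, h1, _⟩
          · have h2 : b = t1 ∧ c = s2 := h1
            obtain ⟨rfl, rfl⟩ := h2
            exact ⟨ih.1 b rfl, ReflTransGen.refl⟩
          · exact h1.elim
        · rcases hbc with h1 | ⟨x, h1, _⟩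
          · exact h1.elim
          · exact h1.elim
        · refine ⟨fun a ha => (by cases ha), fun b' hb => ?_⟩
          cases hb
          exact ⟨(ih.2 b rfl).1, (ih.2 b rfl).2.tail hbc⟩
    exact (key _ h).2 t2 rfl
  · rintro ⟨h1, h2⟩
    have h3 := ReflTransGen.lift (p := dt5_pass (dt5_sl t1 s2 l1 l2) (dt5_sw w1 w2) v)
      (Sum.inl : W1 → W1 ⊕ W2) (fun a b hab => hab) _ _ h1
    have h4 := ReflTransGen.lift (p := dt5_pass (dt5_sl t1 s2 l1 l2) (dt5_sw w1 w2) v)
      (Sum.inr : W2 → W1 ⊕ W2) (fun a b hab => hab) _ _ h2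
    have h5 : dt5_pass (dt5_sl t1 s2 l1 l2) (dt5_sw w1 w2) v (Sum.inl t1) (Sum.inr s2) := by
      left
      show t1 = t1 ∧ s2 = s2
      exact ⟨rfl, rfl⟩
    exact ReflTransGen.trans (ReflTransGen.tail h3 h5) h4

/-- link of the parallel composition -/
def dt5_pl {W1 W2 : Type} (s1 t1 : W1) (s2 t2 : W2) (l1 : W1 → W1 → Prop)
    (l2 : W2 → W2 → Prop) : (W1 ⊕ W2) ⊕ Bool → (W1 ⊕ W2) ⊕ Bool → Prop
  | .inl (.inl a), .inl (.inl b) => l1 a b
  | .inl (.inr a), .inl (.inr b) => l2 a b
  | .inr false, .inl (.inl b) => b = s1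
  | .inr false, .inl (.inr b) => b = s2
  | .inl (.inl a), .inr true => a = t1
  | .inl (.inr a), .inr true => a = t2
  | _, _ => False

/-- wires of the parallel composition -/
def dt5_pw {X W1 W2 : Type} (l1 : W1 → W1 → X → Prop) (l2 : W2 → W2 → X → Prop) :
    (W1 ⊕ W2) ⊕ Bool → (W1 ⊕ W2) ⊕ Bool → X → Prop
  | .inl (.inl a), .inl (.inl b) => l1 a b
  | .inl (.inr a), .inl (.inr b) => l2 a b
  | _, _ => fun _ => False

theorem dt5_or {X W1 W2 : Type} (s1 t1 : W1) (s2 t2 : W2) (l1 : W1 → W1 → Prop)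
    (l2 : W2 → W2 → Prop) (w1 : W1 → W1 → X → Prop) (w2 : W2 → W2 → X → Prop) (v : X → Prop) :
    ReflTransGen (dt5_pass (dt5_pl s1 t1 s2 t2 l1 l2) (dt5_pw w1 w2) v) (Sum.inr false)
      (Sum.inr true) ↔
      ReflTransGen (dt5_pass l1 w1 v) s1 t1 ∨ ReflTransGen (dt5_pass l2 w2 v) s2 t2 := by
  constructor
  · intro h
    have key : ∀ c : (W1 ⊕ W2) ⊕ Bool,
        ReflTransGen (dt5_pass (dt5_pl s1 t1 s2 t2 l1 l2) (dt5_pw w1 w2) v) (Sum.inr false) c →
        (∀ a, c = Sum.inl (Sum.inl a) → ReflTransGen (dt5_pass l1 w1 v) s1 a) ∧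
        (∀ b, c = Sum.inl (Sum.inr b) → ReflTransGen (dt5_pass l2 w2 v) s2 b) ∧
        (c = Sum.inr true → ReflTransGen (dt5_pass l1 w1 v) s1 t1 ∨
          ReflTransGen (dt5_pass l2 w2 v) s2 t2) := by
      intro c hc
      induction hc with
      | refl => exact ⟨fun a ha => (by cases ha), fun b hb => (by cases hb), fun h => (by cases h)⟩
      | @tail b c _ hbc ih =>
        rcases b with (b | b) | (_ | _) <;> rcases c with (c | c) | (_ | _)
        · refine ⟨fun a ha => ?_, fun b hb => (by cases hb), fun h => (by cases h)⟩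
          cases ha
          exact (ih.1 b rfl).tail hbc
        · rcases hbc with h1 | ⟨x, h1, _⟩ <;> exact h1.elim
        · rcases hbc with h1 | ⟨x, h1, _⟩ <;> exact h1.elim
        · refine ⟨fun a ha => (by cases ha), fun b hb => (by cases hb), fun _ => ?_⟩
          rcases hbc with h1 | ⟨x, h1, _⟩
          · have h2 : b = t1 := h1
            subst h2
            exact Or.inl (ih.1 b rfl)
          · exact h1.elim
        · rcases hbc with h1 | ⟨x, h1, _⟩ <;> exact h1.elim
        · refine ⟨fun a ha => (by cases ha), fun b' hb => ?_, fun h => (by cases h)⟩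
          cases hb
          exact (ih.2.1 b rfl).tail hbc
        · rcases hbc with h1 | ⟨x, h1, _⟩ <;> exact h1.elim
        · refine ⟨fun a ha => (by cases ha), fun b hb => (by cases hb), fun _ => ?_⟩
          rcases hbc with h1 | ⟨x, h1, _⟩
          · have h2 : b = t2 := h1
            subst h2
            exact Or.inr (ih.2.1 b rfl)
          · exact h1.elim
        · refine ⟨fun a ha => ?_, fun b hb => (by cases hb), fun h => (by cases h)⟩
          cases ha
          rcases hbc with h1 | ⟨x, h1, _⟩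
          · have h2 : c = s1 := h1
            subst h2
            exact ReflTransGen.refl
          · exact h1.elim
        · refine ⟨fun a ha => (by cases ha), fun b' hb => ?_, fun h => (by cases h)⟩
          cases hb
          rcases hbc with h1 | ⟨x, h1, _⟩
          · have h2 : c = s2 := h1
            subst h2
            exact ReflTransGen.refl
          · exact h1.elim
        · rcases hbc with h1 | ⟨x, h1, _⟩ <;> exact h1.elim
        · rcases hbc with h1 | ⟨x, h1, _⟩ <;> exact h1.elim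
        · rcases hbc with h1 | ⟨x, h1, _⟩ <;> exact h1.elim
        · rcases hbc with h1 | ⟨x, h1, _⟩ <;> exact h1.elim
        · rcases hbc with h1 | ⟨x, h1, _⟩ <;> exact h1.elim
        · rcases hbc with h1 | ⟨x, h1, _⟩ <;> exact h1.elim
    exact (key _ h).2.2 rfl
  · rintro (h1 | h2)
    · have h3 := ReflTransGen.lift
        (p := dt5_pass (dt5_pl s1 t1 s2 t2 l1 l2) (dt5_pw w1 w2) v)
        (fun a => (Sum.inl (Sum.inl a) : (W1 ⊕ W2) ⊕ Bool)) (fun a b hab => hab) _ _ h1
      have h4 : dt5_pass (dt5_pl s1 t1 s2 t2 l1 l2) (dt5_pw w1 w2) v (Sum.inr false)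
          (Sum.inl (Sum.inl s1)) := by
        left
        show s1 = s1
        rfl
      have h5 : dt5_pass (dt5_pl s1 t1 s2 t2 l1 l2) (dt5_pw w1 w2) v (Sum.inl (Sum.inl t1))
          (Sum.inr true) := by
        left
        show t1 = t1
        rfl
      exact ReflTransGen.tail (ReflTransGen.trans (ReflTransGen.single h4) h3) h5
    · have h3 := ReflTransGen.lift
        (p := dt5_pass (dt5_pl s1 t1 s2 t2 l1 l2) (dt5_pw w1 w2) v)
        (fun a => (Sum.inl (Sum.inr a) : (W1 ⊕ W2) ⊕ Bool)) (fun a b hab => hab) _ _ h2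
      have h4 : dt5_pass (dt5_pl s1 t1 s2 t2 l1 l2) (dt5_pw w1 w2) v (Sum.inr false)
          (Sum.inl (Sum.inr s2)) := by
        left
        show s2 = s2
        rfl
      have h5 : dt5_pass (dt5_pl s1 t1 s2 t2 l1 l2) (dt5_pw w1 w2) v (Sum.inl (Sum.inr t2))
          (Sum.inr true) := by
        left
        show t2 = t2
        rfl
      exact ReflTransGen.tail (ReflTransGen.trans (ReflTransGen.single h4) h3) h5

theorem dt5_main {X I : Type} {inp : Set (I → Prop)} (φ : (X → Prop) → I)
    (hφ : ∀ g ∈ inp, ∃ (p : Prop) (A : Set X), ∀ v, g (φ v) ↔ p ∨ ∃ x ∈ A, v x) {d : ℕ}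
    {f : I → Prop} (h : MD inp d f) :
    ∃ (W : Type) (_ : Fintype W) (s t : W) (link : W → W → Prop) (wire : W → W → X → Prop),
      Fintype.card W + 2 ≤ 4 * 2 ^ d ∧
      ∀ v, ReflTransGen (dt5_pass link wire v) s t ↔ f (φ v) := by
  induction h with
  | @leaf d f hf =>
    obtain ⟨p, A, hA⟩ := hφ f hf
    refine ⟨Bool, inferInstance, false, true, fun a b => a = false ∧ b = true ∧ p,
      fun a b x => a = false ∧ b = true ∧ x ∈ A, ?_, fun v => ?_⟩
    · have := Nat.one_le_two_pow (n := d)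
      simp only [Fintype.card_bool]
      omega
    · rw [hA v]
      constructor
      · intro h
        rcases ReflTransGen.cases_tail h with h1 | ⟨c, _, h2⟩
        · cases h1
        · rcases h2 with ⟨_, _, hp⟩ | ⟨x, ⟨_, _, hx⟩, hv⟩
          · exact Or.inl hp
          · exact Or.inr ⟨x, hx, hv⟩
      · rintro (hp | ⟨x, hx, hv⟩)
        · exact ReflTransGen.single (Or.inl ⟨rfl, rfl, hp⟩)
        · exact ReflTransGen.single (Or.inr ⟨x, ⟨rfl, rfl, hx⟩, hv⟩)
  | @and d f g _ _ ih1 ih2 =>
    obtain ⟨W1, F1, s1, t1, l1, w1, hc1, h1⟩ := ih1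
    obtain ⟨W2, F2, s2, t2, l2, w2, hc2, h2⟩ := ih2
    refine ⟨W1 ⊕ W2, inferInstance, Sum.inl s1, Sum.inr t2, dt5_sl t1 s2 l1 l2, dt5_sw w1 w2,
      ?_, fun v => ?_⟩
    · rw [Fintype.card_sum, pow_succ]
      omega
    · rw [dt5_and, h1, h2]
  | @or d f g _ _ ih1 ih2 =>
    obtain ⟨W1, F1, s1, t1, l1, w1, hc1, h1⟩ := ih1
    obtain ⟨W2, F2, s2, t2, l2, w2, hc2, h2⟩ := ih2
    refine ⟨(W1 ⊕ W2) ⊕ Bool, inferInstance, Sum.inr false, Sum.inr true,
      dt5_pl s1 t1 s2 t2 l1 l2, dt5_pw w1 w2, ?_, fun v => ?_⟩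
    · rw [Fintype.card_sum, Fintype.card_sum, Fintype.card_bool, pow_succ]
      omega
    · rw [dt5_or, h1, h2]

theorem net_of_MD {X I : Type} {inp : Set (I → Prop)} (φ : (X → Prop) → I)
    (hφ : ∀ g ∈ inp, ∃ (p : Prop) (A : Set X), ∀ v, g (φ v) ↔ p ∨ ∃ x ∈ A, v x) {d : ℕ}
    {f : I → Prop} (h : MD inp d f) :
    ∃ N : DNet X, N.size ≤ 4 * 2 ^ d ∧ ∀ v, N.Accepts v ↔ f (φ v) := by
  obtain ⟨W, F, s, t, l, w, hc, h1⟩ := dt5_main φ hφ h
  refine ⟨dt5_ofType s t l w, ?_, fun v => ?_⟩
  · show Fintype.card W ≤ 4 * 2 ^ d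
    omega
  · rw [dt5_ofType_accepts, h1]

theorem dt5_cost_pos {I : Type} {inp : Set (I → Prop)} {d : ℕ} (T : RT inp d) :
    1 ≤ T.cost := by
  induction T with
  | out f h => exact le_refl 1
  | ask w f h next ih =>
    show 1 ≤ (w + 1) * univ.sup fun a => (next a).cost
    have h1 : (next fun _ => false).cost ≤ univ.sup fun a => (next a).cost :=
      Finset.le_sup (f := fun a => (next a).cost) (Finset.mem_univ _)
    have h2 := ih (fun _ => false)
    have h3 : 1 ≤ univ.sup fun a => (next a).cost := h2.trans h1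
    nlinarith

theorem dtree_of_RT {X I : Type} {inp : Set (I → Prop)} (φ : (X → Prop) → I)
    (hφ : ∀ g ∈ inp, ∃ (p : Prop) (A : Set X), ∀ v, g (φ v) ↔ p ∨ ∃ x ∈ A, v x) {d : ℕ}
    (T : RT inp d) :
    ∃ T' : DTree X, T'.cost = T.cost ∧ T'.load ≤ T.cost * (4 * 2 ^ d) ∧
      ∀ v, T'.eval v ↔ T.eval (φ v) := by
  induction T with
  | out f h =>
    obtain ⟨N, hN, h1⟩ := net_of_MD φ hφ h
    refine ⟨DTree.out N, rfl, ?_, h1⟩
    show N.size ≤ 1 * (4 * 2 ^ d)
    rw [one_mul]
    exact hN
  | ask w f h next ih =>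
    choose N hN h1 using fun i => net_of_MD φ hφ (h i)
    choose T' hc hl he using ih
    refine ⟨DTree.ask w N T', ?_, ?_, fun v => ?_⟩
    · show (w + 1) * Finset.univ.sup (fun a => (T' a).cost) =
        (w + 1) * Finset.univ.sup (fun a => (next a).cost)
      simp only [hc]
    · show (∑ i, (N i).size) + Finset.univ.sup (fun a => (T' a).load) ≤
        ((w + 1) * Finset.univ.sup (fun a => (next a).cost)) * (4 * 2 ^ d)
      have h2 : ∑ i, (N i).size ≤ w * (4 * 2 ^ d) := by
        calc ∑ i, (N i).size ≤ ∑ _i : Fin w, (4 * 2 ^ d) := Finset.sum_le_sum fun i _ => hN i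
          _ = w * (4 * 2 ^ d) := by simp
      have h3 : Finset.univ.sup (fun a => (T' a).load) ≤
          (Finset.univ.sup fun a => (next a).cost) * (4 * 2 ^ d) := by
        refine Finset.sup_le fun a _ => ?_
        refine (hl a).trans (Nat.mul_le_mul_right _ ?_)
        exact Finset.le_sup (f := fun a => (next a).cost) (Finset.mem_univ _)
      have h4 : 1 ≤ Finset.univ.sup fun a => (next a).cost :=
        (dt5_cost_pos (next fun _ => false)).trans
          (Finset.le_sup (f := fun a => (next a).cost) (Finset.mem_univ _))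
      have h5 : w * (4 * 2 ^ d) ≤
          w * ((Finset.univ.sup fun a => (next a).cost) * (4 * 2 ^ d)) := by
        apply Nat.mul_le_mul_left
        nlinarith [Nat.mul_le_mul_right (4 * 2 ^ d) h4]
      calc (∑ i, (N i).size) + Finset.univ.sup (fun a => (T' a).load)
          ≤ w * ((Finset.univ.sup fun a => (next a).cost) * (4 * 2 ^ d)) +
            (Finset.univ.sup fun a => (next a).cost) * (4 * 2 ^ d) :=
            Nat.add_le_add (h2.trans h5) h3
        _ = ((w + 1) * Finset.univ.sup (fun a => (next a).cost)) * (4 * 2 ^ d) := by ring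
    · show (T' (dans N v)).eval v ↔ (next fun i => decide (f i (φ v))).eval (φ v)
      have h2 : dans N v = fun i => decide (f i (φ v)) := by
        funext i
        unfold dans
        rw [decide_eq_decide]
        exact h1 i v
      rw [h2, he]

end H630DP
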