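import Pool.Agent.H630DP.Calc
import Pool.Agent.H534R2.GenDefs

/-! Path systems as instances of a Horn language (helper596) -/

open scoped Classical
open Finset

namespace H630DP

open H630SD H534R2.Gen

/-- the column of the first premise in the table of the seven triples with `x ∧ y → z` -/
def dt6_x : Fin 7 → Bool := ![false, false, false, false, true, true, true]

/-- the column of the second premise -/
def dt6_y : Fin 7 → Bool := ![false, false, true, true, false, false, true]

/-- the column of the conclusion -/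
def dt6_z : Fin 7 → Bool := ![false, true, false, true, false, true, true]

theorem dt6_xz : dt6_x ≠ dt6_z := by
  intro h
  have := congrFun h 1
  simp [dt6_x, dt6_z] at this

theorem dt6_yz : dt6_y ≠ dt6_z := by
  intro h
  have := congrFun h 1
  simp [dt6_y, dt6_z] at this

theorem dt6_yx : dt6_y ≠ dt6_x := by
  intro h
  have := congrFun h 2
  simp [dt6_y, dt6_x] at this

theorem dt6_le : ∀ s, dt6_x s = true → dt6_y s = true → dt6_z s = true := by
  decide

theorem dt6_row : ∀ a b c : Bool, (a = true → b = true → c = true) →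
    ∃ s, dt6_x s = a ∧ dt6_y s = b ∧ dt6_z s = c := by
  decide

/-- the variables of the instance -/
abbrev dt6_W {V : Type} (H : PS V → Prop) : Type :=
  V ⊕ (Option {x : PS V // H x} × (Fin 7 → Bool))

/-- the variable at the point `p` of the table of `b` -/
noncomputable def dt6_loc {V : Type} (H : PS V → Prop) (t : V) :
    Option {x : PS V // H x} → (Fin 7 → Bool) → dt6_W H
  | none, p => if p = (fun _ => false) then .inl t else .inr (none, p)
  | some ⟨.ax x, h⟩, p => if p = (fun _ => true) then .inl x else .inr (some ⟨.ax x, h⟩, p)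
  | some ⟨.rl x y z, h⟩, p =>
    if p = dt6_z then .inl z else if p = dt6_x then .inl x else if p = dt6_y then .inl y else
      .inr (some ⟨.rl x y z, h⟩, p)

section

variable {ι : Type} {ar : ι → ℕ} (rel : ∀ i, Set (Fin (ar i) → Bool)) {V : Type} {N : ℕ}

/-- the constraints of the table of `b` -/
def dt6_gad {H : PS V → Prop} (t : V) (e : dt6_W H → Fin N) (b : Option {x : PS V // H x}) :
    Set (Con ar (Fin N)) :=
  {C | ∃ (i : ι) (u : Fin 7 → Fin (ar i) → Bool), (∀ s, u s ∈ rel i) ∧
    C = ⟨i, fun j => e (dt6_loc H t b fun s => u s j)⟩}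

/-- the instance of a path system -/
def dt6_inst {H : PS V → Prop} (t : V) (e : dt6_W H → Fin N) (v : PS V → Prop) :
    Set (Con ar (Fin N)) :=
  {C | C ∈ dt6_gad rel t e none ∨ ∃ x : {x : PS V // H x}, v x.1 ∧ C ∈ dt6_gad rel t e (some x)}

variable {rel}

theorem dt6_pol {H : PS V → Prop} (t : V) (e : dt6_W H → Fin N) (b : Option {x : PS V // H x})
    (x : Fin N → Bool) (hx : ∀ C ∈ dt6_gad rel t e b, (fun j => x (C.2 j)) ∈ rel C.1) :
    Pol rel (fun p : Fin 7 → Bool => x (e (dt6_loc H t b p))) := by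
  intro i u hu
  exact hx ⟨i, fun j => e (dt6_loc H t b fun s => u s j)⟩ ⟨i, u, hu, rfl⟩

theorem dt6_unsolv {H : PS V → Prop} (t : V) (e : dt6_W H → Fin N) (v : PS V → Prop)
    (hv : ∀ x, v x → H x)
    (hconj : ∀ f : (Fin 7 → Bool) → Bool, Pol rel f →
      ∃ I : Finset (Fin 7), I.Nonempty ∧ ∀ x, f x = true ↔ ∀ i ∈ I, x i = true)
    (h : Sat rel (dt6_inst rel t e v)) : ¬ Solv v t := by
  obtain ⟨x, hx⟩ := h
  -- the goal
  have h0 : x (e (.inl t)) ≠ true := by
    obtain ⟨I, ⟨i, hi⟩, hI⟩ := hconj _ (dt6_pol t e none x fun C hC => hx C (Or.inl hC))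
    have h1 := hI (fun _ => false)
    have h2 : dt6_loc H t none (fun _ => false) = .inl t := by
      rw [dt6_loc]
      exact if_pos rfl
    rw [h2] at h1
    intro h3
    exact Bool.false_ne_true (h1.1 h3 i hi)
  have key : ∀ w, Solv v w → x (e (.inl w)) = true := by
    intro w hw
    induction hw with
    | ax w hw =>
      have hb : ∀ C ∈ dt6_gad rel t e (some ⟨.ax w, hv _ hw⟩), (fun j => x (C.2 j)) ∈ rel C.1 :=
        fun C hC => hx C (Or.inr ⟨⟨.ax w, hv _ hw⟩, hw, hC⟩)
      obtain ⟨I, -, hI⟩ := hconj _ (dt6_pol t e _ x hb)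
      have h1 := hI (fun _ => true)
      have h2 : dt6_loc H t (some ⟨.ax w, hv _ hw⟩) (fun _ => true) = .inl w := by
        rw [dt6_loc]
        exact if_pos rfl
      rw [h2] at h1
      exact h1.2 fun i _ => rfl
    | rl a b c hw _ _ ih1 ih2 =>
      have hb : ∀ C ∈ dt6_gad rel t e (some ⟨.rl a b c, hv _ hw⟩),
          (fun j => x (C.2 j)) ∈ rel C.1 :=
        fun C hC => hx C (Or.inr ⟨⟨.rl a b c, hv _ hw⟩, hw, hC⟩)
      obtain ⟨I, -, hI⟩ := hconj _ (dt6_pol t e _ x hb)
      have lz : dt6_loc H t (some ⟨.rl a b c, hv _ hw⟩) dt6_z = .inl c := by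
        rw [dt6_loc]
        exact if_pos rfl
      have lx : dt6_loc H t (some ⟨.rl a b c, hv _ hw⟩) dt6_x = .inl a := by
        rw [dt6_loc, if_neg dt6_xz]
        exact if_pos rfl
      have ly : dt6_loc H t (some ⟨.rl a b c, hv _ hw⟩) dt6_y = .inl b := by
        rw [dt6_loc, if_neg dt6_yz, if_neg dt6_yx]
        exact if_pos rfl
      have hx1 := hI dt6_x
      have hy1 := hI dt6_y
      have hz1 := hI dt6_z
      rw [lx] at hx1
      rw [ly] at hy1
      rw [lz] at hz1
      exact hz1.2 fun i hi => dt6_le i (hx1.1 ih1 i hi) (hy1.1 ih2 i hi)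
  exact fun h => h0 (key t h)

theorem dt6_sat {H : PS V → Prop} (t : V) (e : dt6_W H → Fin N) (he : Function.Injective e)
    (v : PS V → Prop) (h : ¬ Solv v t) : Sat rel (dt6_inst rel t e v) := by
  have hs : ∀ b : PS V, ∃ s : Fin 7, v b → ∀ x y z, b = .rl x y z →
      dt6_x s = decide (Solv v x) ∧ dt6_y s = decide (Solv v y) ∧
        dt6_z s = decide (Solv v z) := by
    intro b
    by_cases hb : v b
    · cases b with
      | ax x => exact ⟨0, fun _ x' y' z' hh => by cases hh⟩
      | rl x y z =>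
        obtain ⟨s, h1, h2, h3⟩ := dt6_row (decide (Solv v x)) (decide (Solv v y))
          (decide (Solv v z)) (by
            intro h1 h2
            rw [decide_eq_true_eq] at h1 h2 ⊢
            exact Solv.rl x y z hb h1 h2)
        refine ⟨s, fun _ x' y' z' hh => ?_⟩
        cases hh
        exact ⟨h1, h2, h3⟩
    · exact ⟨0, fun h' => absurd h' hb⟩
  choose s hs using hs
  let val : dt6_W H → Bool := fun w => match w with
    | .inl w => decide (Solv v w)
    | .inr (none, p) => p 0
    | .inr (some b, p) => p (s b.1)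
  have fin : ∀ (b : Option {x : PS V // H x}) (r : Fin 7),
      (∀ p, val (dt6_loc H t b p) = p r) → ∀ C ∈ dt6_gad rel t e b,
        (fun j => Function.extend e val (fun _ => false) (C.2 j)) ∈ rel C.1 := by
    rintro b r hr C ⟨i, u, hu, rfl⟩
    have e1 : (fun j => Function.extend e val (fun _ => false)
        (e (dt6_loc H t b fun s => u s j))) = u r := by
      funext j
      rw [he.extend_apply, hr]
    show (fun j => Function.extend e val (fun _ => false)
        (e (dt6_loc H t b fun s => u s j))) ∈ rel i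
    rw [e1]
    exact hu _
  refine ⟨Function.extend e val fun _ => false, ?_⟩
  rintro C (hC | ⟨⟨b, hbH⟩, hb, hC⟩)
  · refine fin none 0 (fun p => ?_) C hC
    by_cases hp : p = fun _ => false
    · have h2 : dt6_loc H t none p = .inl t := if_pos hp
      rw [h2, hp]
      exact decide_eq_false h
    · have h2 : dt6_loc H t none p = .inr (none, p) := if_neg hp
      rw [h2]
  · refine fin (some ⟨b, hbH⟩) (s b) (fun p => ?_) C hC
    cases b with
    | ax x =>
      by_cases hp : p = fun _ => true
      · have h2 : dt6_loc H t (some ⟨.ax x, hbH⟩) p = .inl x := if_pos hp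
        rw [h2, hp]
        exact decide_eq_true (Solv.ax x hb)
      · have h2 : dt6_loc H t (some ⟨.ax x, hbH⟩) p = .inr (some ⟨.ax x, hbH⟩, p) := if_neg hp
        rw [h2]
    | rl x y z =>
      obtain ⟨h1, h2, h3⟩ := hs (.rl x y z) hb x y z rfl
      by_cases hz : p = dt6_z
      · have h4 : dt6_loc H t (some ⟨.rl x y z, hbH⟩) p = .inl z := if_pos hz
        rw [h4, hz]
        exact h3.symm
      · by_cases hx : p = dt6_x
        · have h4 : dt6_loc H t (some ⟨.rl x y z, hbH⟩) p = .inl x :=
            (if_neg hz).trans (if_pos hx)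
          rw [h4, hx]
          exact h1.symm
        · by_cases hy : p = dt6_y
          · have h4 : dt6_loc H t (some ⟨.rl x y z, hbH⟩) p = .inl y :=
              (if_neg hz).trans ((if_neg hx).trans (if_pos hy))
            rw [h4, hy]
            exact h2.symm
          · have h4 : dt6_loc H t (some ⟨.rl x y z, hbH⟩) p =
                .inr (some ⟨.rl x y z, hbH⟩, p) :=
              (if_neg hz).trans ((if_neg hx).trans (if_neg hy))
            rw [h4]

theorem horn_inst {V : Type} [Fintype V] (t : V) (H : PS V → Prop) {N : ℕ}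
    (hN : Fintype.card V + 128 * {x : PS V | H x}.ncard + 128 ≤ N)
    (hfin : {x : PS V | H x}.Finite)
    (hconj : ∀ f : (Fin 7 → Bool) → Bool, Pol rel f →
      ∃ I : Finset (Fin 7), I.Nonempty ∧ ∀ x, f x = true ↔ ∀ i ∈ I, x i = true) :
    ∃ φ : (PS V → Prop) → Set (Con ar (Fin N)),
      (∀ C, ∃ (p : Prop) (A : Set (PS V)), ∀ v, C ∈ φ v ↔ p ∨ ∃ x ∈ A, v x) ∧
      ∀ v, (∀ x, v x → H x) → (Sat rel (φ v) ↔ ¬ Solv v t) := by
  letI : Fintype {x : PS V // H x} := hfin.fintype
  have hc : Fintype.card {x : PS V // H x} = {x : PS V | H x}.ncard := by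
    rw [← Nat.card_eq_fintype_card]
    exact Nat.card_coe_set_eq {x : PS V | H x}
  have hcard : Fintype.card (dt6_W H) ≤ Fintype.card (Fin N) := by
    rw [Fintype.card_fin, Fintype.card_sum, Fintype.card_prod, Fintype.card_option, hc,
      Fintype.card_fun, Fintype.card_bool, Fintype.card_fin]
    norm_num
    omega
  obtain ⟨e⟩ := Function.Embedding.nonempty_of_card_le hcard
  refine ⟨fun v => dt6_inst rel t e v, fun C => ?_, fun v hv => ⟨?_, ?_⟩⟩
  · refine ⟨C ∈ dt6_gad rel t e none, {x | ∃ h : H x, C ∈ dt6_gad rel t e (some ⟨x, h⟩)},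
      fun v => ?_⟩
    constructor
    · rintro (h | ⟨⟨x, hx⟩, hvx, h⟩)
      · exact Or.inl h
      · exact Or.inr ⟨x, ⟨hx, h⟩, hvx⟩
    · rintro (h | ⟨x, ⟨hx, h⟩, hvx⟩)
      · exact Or.inl h
      · exact Or.inr ⟨⟨x, hx⟩, hvx, h⟩
  · exact fun h => dt6_unsolv t e v hv hconj h
  · exact fun h => dt6_sat t e e.injective v h

end

end H630DP
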