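import Pool.Agent.H630DP.Calc
import Pool.Agent.H534R2.GenFinal

/-!
T7: lower bound for Horn languages, the choice of the parameters.
-/

open scoped Classical
open Finset
namespace H630DP
open H630SD H534R2.Gen

/-- the set of path variables over a finite set is finite -/
theorem dt7_finite (V : Type) [Fintype V] : Finite (PS V) := by
  let f : PS V → V ⊕ (V × V × V) := fun x => match x with
    | .ax x => Sum.inl x
    | .rl x y z => Sum.inr (x, y, z)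
  have hf : Function.Injective f := by
    rintro (x | ⟨x, y, z⟩) (x' | ⟨x', y', z'⟩) h
    · have h' : x = x' := Sum.inl.inj h
      rw [h']
    · exact absurd h (by simp [f])
    · exact absurd h (by simp [f])
    · have h' : (x, y, z) = (x', y', z') := Sum.inr.inj h
      simp only [Prod.mk.injEq] at h'
      obtain ⟨rfl, rfl, rfl⟩ := h'
      rfl
  exact Finite.of_injective f hf

/-- the inequalities that hold for all large `N` -/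
theorem dt7_eventually (a c : ℝ) (ha0 : 0 ≤ a) (hc0 : 0 < c) (hac : a + 28 * c < 1) :
    ∃ N₀ : ℕ, ∀ N : ℕ, N₀ ≤ N → 1 ≤ N ∧ (Nat.log 2 N : ℝ) ≤ (N : ℝ) ^ c ∧ 4 ≤ (N : ℝ) ^ c ∧
      ((36 * 100 ^ 6 + 128 * 46656 * 100 ^ 14 + 129 : ℕ) : ℝ) ≤ (N : ℝ) ^ (1 - (a + 28 * c)) := by
  have h1 : ∀ᶠ N : ℕ in Filter.atTop, 1 ≤ N := Filter.eventually_ge_atTop 1
  have h2 : ∀ᶠ N : ℕ in Filter.atTop, (Nat.log 2 N : ℝ) ≤ (N : ℝ) ^ c := by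
    have hl : ∀ᶠ x : ℝ in Filter.atTop, ‖Real.log x‖ ≤ Real.log 2 * ‖x ^ c‖ :=
      (isLittleO_log_rpow_atTop hc0).bound (Real.log_pos (by norm_num))
    have hl' := tendsto_natCast_atTop_atTop.eventually hl
    filter_upwards [hl', h1] with N hN hN1
    have hN0 : (1:ℝ) ≤ N := by exact_mod_cast hN1
    have e1 : (Nat.log 2 N : ℝ) ≤ Real.logb 2 N := by
      have := Real.natLog_le_logb N 2
      simpa using this
    have hlog2 : 0 < Real.log 2 := Real.log_pos (by norm_num)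
    refine e1.trans ?_
    unfold Real.logb
    rw [div_le_iff₀ hlog2]
    have e2 : ‖Real.log (N:ℝ)‖ = Real.log N := by
      rw [Real.norm_eq_abs, abs_of_nonneg (Real.log_nonneg hN0)]
    have e3 : ‖(N:ℝ) ^ c‖ = (N:ℝ) ^ c := by
      rw [Real.norm_eq_abs, abs_of_nonneg (Real.rpow_nonneg (by linarith) c)]
    rw [e2, e3] at hN
    linarith
  have h3 : ∀ᶠ N : ℕ in Filter.atTop, (4:ℝ) ≤ (N : ℝ) ^ c :=
    ((tendsto_rpow_atTop hc0).comp tendsto_natCast_atTop_atTop).eventually_ge_atTop 4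
  have h4 : ∀ᶠ N : ℕ in Filter.atTop,
      ((36 * 100 ^ 6 + 128 * 46656 * 100 ^ 14 + 129 : ℕ) : ℝ) ≤ (N : ℝ) ^ (1 - (a + 28 * c)) :=
    ((tendsto_rpow_atTop (by linarith)).comp tendsto_natCast_atTop_atTop).eventually_ge_atTop _
  obtain ⟨N₀, hN₀⟩ := Filter.eventually_atTop.1 (h1.and (h2.and (h3.and h4)))
  exact ⟨N₀, fun N hN => hN₀ N hN⟩

theorem dt7_num {a c : ℝ} {N d M l h : ℕ} (ha0 : 0 ≤ a) (hN : 1 ≤ N)
    (hlog : (Nat.log 2 N : ℝ) ≤ (N : ℝ) ^ c) (h4 : 4 ≤ (N : ℝ) ^ c)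
    (hK : ((36 * 100 ^ 6 + 128 * 46656 * 100 ^ 14 + 129 : ℕ) : ℝ) ≤
      (N : ℝ) ^ (1 - (a + 28 * c)))
    (hd : (d : ℝ) ≤ (N : ℝ) ^ c) (hM : (M : ℝ) ≤ (N : ℝ) ^ a)
    (hl : l = d + Nat.log 2 N + 4) (hh : h = 6 * l ^ 2 + 6 * l + 12) :
    (36 * M * (h + 1) ^ 6 + 1) + 128 * (46656 * M * (h + 1) ^ 14) + 128 ≤ N := by
  have hN1 : (1:ℝ) ≤ N := by exact_mod_cast hN
  obtain ⟨y, hy⟩ : ∃ y : ℝ, y = (N:ℝ) ^ c := ⟨_, rfl⟩
  obtain ⟨A, hA⟩ : ∃ A : ℝ, A = (N:ℝ) ^ a := ⟨_, rfl⟩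
  rw [← hy] at hlog h4 hd
  rw [← hA] at hM
  have hA1 : 1 ≤ A := by rw [hA]; exact Real.one_le_rpow hN1 ha0
  have hl3 : (l:ℝ) ≤ 3 * y := by
    rw [hl]; push_cast; linarith
  have hl0 : (0:ℝ) ≤ l := Nat.cast_nonneg l
  have hh1 : ((h + 1 : ℕ) : ℝ) ≤ 100 * y ^ 2 := by
    rw [hh]; push_cast
    nlinarith [mul_self_nonneg (y - 1), mul_le_mul hl3 hl3 hl0 (by linarith : (0:ℝ) ≤ 3 * y)]
  have hh0 : (0:ℝ) ≤ ((h + 1 : ℕ) : ℝ) := Nat.cast_nonneg _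
  have hy1 : 1 ≤ y := by linarith
  have e6 : ((h + 1 : ℕ) : ℝ) ^ 6 ≤ 100 ^ 6 * y ^ 28 := by
    calc ((h + 1 : ℕ) : ℝ) ^ 6 ≤ (100 * y ^ 2) ^ 6 := pow_le_pow_left₀ hh0 hh1 6
      _ = 100 ^ 6 * y ^ 12 := by ring
      _ ≤ 100 ^ 6 * y ^ 28 := by
        have : y ^ 12 ≤ y ^ 28 := pow_le_pow_right₀ hy1 (by norm_num)
        nlinarith
  have e14 : ((h + 1 : ℕ) : ℝ) ^ 14 ≤ 100 ^ 14 * y ^ 28 := by
    calc ((h + 1 : ℕ) : ℝ) ^ 14 ≤ (100 * y ^ 2) ^ 14 := pow_le_pow_left₀ hh0 hh1 14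
      _ = 100 ^ 14 * y ^ 28 := by ring
  have hM0 : (0:ℝ) ≤ M := Nat.cast_nonneg M
  have hy28 : 1 ≤ y ^ 28 := one_le_pow₀ hy1
  have f6 : (M:ℝ) * ((h + 1 : ℕ) : ℝ) ^ 6 ≤ A * (100 ^ 6 * y ^ 28) :=
    mul_le_mul hM e6 (by positivity) (by linarith)
  have f14 : (M:ℝ) * ((h + 1 : ℕ) : ℝ) ^ 14 ≤ A * (100 ^ 14 * y ^ 28) :=
    mul_le_mul hM e14 (by positivity) (by linarith)
  have f1 : 1 ≤ A * y ^ 28 := by nlinarith
  have hAy : A * y ^ 28 = (N:ℝ) ^ (a + 28 * c) := by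
    rw [hA, hy, Real.rpow_add (by linarith), mul_comm (28:ℝ) c, Real.rpow_mul (by linarith)]
    congr 1
    rw [← Real.rpow_natCast ((N:ℝ) ^ c) 28]
    norm_num
  have hfin : ((36 * 100 ^ 6 + 128 * 46656 * 100 ^ 14 + 129 : ℕ) : ℝ) * (A * y ^ 28) ≤ N := by
    rw [hAy]
    calc _ ≤ (N : ℝ) ^ (1 - (a + 28 * c)) * (N:ℝ) ^ (a + 28 * c) :=
          mul_le_mul_of_nonneg_right hK (Real.rpow_nonneg (by linarith) _)
      _ = (N:ℝ) ^ ((1 - (a + 28 * c)) + (a + 28 * c)) := (Real.rpow_add (by linarith) _ _).symm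
      _ = N := by rw [sub_add_cancel, Real.rpow_one]
  have : (((36 * M * (h + 1) ^ 6 + 1) + 128 * (46656 * M * (h + 1) ^ 14) + 128 : ℕ) : ℝ)
      ≤ (N : ℝ) := by
    refine le_trans ?_ hfin
    have g : (((36 * M * (h + 1) ^ 6 + 1) + 128 * (46656 * M * (h + 1) ^ 14) + 128 : ℕ) : ℝ)
        = 36 * ((M:ℝ) * ((h + 1 : ℕ) : ℝ) ^ 6) + 128 * 46656 * ((M:ℝ) * ((h + 1 : ℕ) : ℝ) ^ 14)
          + 129 := by
      push_cast; ring
    have g2 : ((36 * 100 ^ 6 + 128 * 46656 * 100 ^ 14 + 129 : ℕ) : ℝ) * (A * y ^ 28)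
        = 36 * (A * (100 ^ 6 * y ^ 28)) + 128 * 46656 * (A * (100 ^ 14 * y ^ 28))
          + 129 * (A * y ^ 28) := by
      push_cast; ring
    rw [g, g2]
    linarith
  exact_mod_cast this

/-- the statement of T5 -/
def DT7H5 : Prop := ∀ (X I : Type) (inp : Set (I → Prop)) (φ : (X → Prop) → I),
    (∀ g ∈ inp, ∃ (p : Prop) (A : Set X), ∀ v, g (φ v) ↔ p ∨ ∃ x ∈ A, v x) → ∀ (d : ℕ)
    (T : RT inp d),
    ∃ T' : DTree X, T'.cost = T.cost ∧ T'.load ≤ T.cost * (4 * 2 ^ d) ∧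
      ∀ v, T'.eval v ↔ T.eval (φ v)

/-- the statement of T6 -/
def DT7H6 : Prop := ∀ (ι : Type) (ar : ι → ℕ) (rel : ∀ i, Set (Fin (ar i) → Bool))
    (V : Type) (_ : Fintype V) (t : V) (H : PS V → Prop) (N : ℕ),
    Fintype.card V + 128 * {x : PS V | H x}.ncard + 128 ≤ N →
    {x : PS V | H x}.Finite →
    (∀ f : (Fin 7 → Bool) → Bool, Pol rel f →
      ∃ I : Finset (Fin 7), I.Nonempty ∧ ∀ x, f x = true ↔ ∀ i ∈ I, x i = true) →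
    ∃ φ : (PS V → Prop) → Set (Con ar (Fin N)),
      (∀ C, ∃ (p : Prop) (A : Set (PS V)), ∀ v, C ∈ φ v ↔ p ∨ ∃ x ∈ A, v x) ∧
      ∀ v, (∀ x, v x → H x) → (Sat rel (φ v) ↔ ¬ Solv v t)

/-- **Lower bound for Horn languages**, from T5 and T6. -/
theorem horn_low_of (h5 : DT7H5) (h6 : DT7H6) (a c : ℝ) (ha0 : 0 ≤ a) (ha : a < 1) (hc0 : 0 < c) (hc : c < (1 - a) / 28) :
    ∃ N₀ : ℕ, ∀ N : ℕ, N₀ ≤ N → ∀ (ι : Type) (ar : ι → ℕ) (rel : ∀ i, Set (Fin (ar i) → Bool)),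
      (∀ f : (Fin 7 → Bool) → Bool, Pol rel f →
        ∃ I : Finset (Fin 7), I.Nonempty ∧ ∀ x, f x = true ↔ ∀ i ∈ I, x i = true) →
      ∀ (d : ℕ) (T : RT (bits ar (Fin N)) d), (∀ F, T.eval F ↔ ¬ Sat rel F) →
        (T.cost : ℝ) ≤ (N : ℝ) ^ a → (N : ℝ) ^ c < d := by
  obtain ⟨N₀, hN₀⟩ := dt7_eventually a c ha0 hc0 (by linarith)
  refine ⟨N₀, fun N hN ι ar rel hconj d T hT hcost => ?_⟩
  obtain ⟨h1, hlog, h4, hK⟩ := hN₀ N hN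
  by_contra hcon
  push Not at hcon
  obtain ⟨M, hM⟩ : ∃ M, M = ⌊(N:ℝ) ^ a⌋₊ := ⟨_, rfl⟩
  obtain ⟨l, hl⟩ : ∃ l, l = d + Nat.log 2 N + 4 := ⟨_, rfl⟩
  obtain ⟨h, hh⟩ : ∃ h, h = 6 * l ^ 2 + 6 * l + 12 := ⟨_, rfl⟩
  have hN1 : (1:ℝ) ≤ N := by exact_mod_cast h1
  have hMle : (M:ℝ) ≤ (N:ℝ) ^ a := by
    rw [hM]; exact Nat.floor_le (Real.rpow_nonneg (by linarith) a)
  have hnum := dt7_num ha0 h1 hlog h4 hK hcon hMle hl hh
  let V : Type := Fin (36 * M * (h + 1) ^ 6 + 1)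
  have hVcard : Fintype.card V = 36 * M * (h + 1) ^ 6 + 1 := Fintype.card_fin _
  let t : V := ⟨0, Nat.succ_pos _⟩
  obtain ⟨H, hHcard, hH⟩ := host_bound l h M (le_of_eq hh.symm) V t (le_of_eq hVcard.symm)
  have : Finite (PS V) := dt7_finite V
  obtain ⟨φ, hφ1, hφ2⟩ := h6 ι ar rel V inferInstance t H N (by
    rw [hVcard]
    have := Nat.mul_le_mul_left 128 hHcard
    omega) (Set.toFinite _) hconj
  obtain ⟨T', hT'cost, hT'load, hT'eval⟩ := h5 (PS V) _ _ φ (by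
    rintro g (⟨C, rfl⟩ | ⟨p, rfl⟩)
    · exact hφ1 C
    · exact ⟨p, ∅, fun v => by simp⟩) d T
  have hcostN : T.cost ≤ N := by
    have e : (N:ℝ) ^ a ≤ N := by
      calc (N:ℝ) ^ a ≤ (N:ℝ) ^ (1:ℝ) := Real.rpow_le_rpow_of_exponent_le hN1 ha.le
        _ = N := Real.rpow_one _
    exact_mod_cast hcost.trans e
  have hload : T'.load ≤ 2 ^ l := by
    refine hT'load.trans ?_
    have e1 : N < 2 ^ (Nat.log 2 N + 1) := Nat.lt_pow_succ_log_self (by norm_num) N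
    calc T.cost * (4 * 2 ^ d) ≤ 2 ^ (Nat.log 2 N + 1) * (4 * 2 ^ d) :=
          Nat.mul_le_mul_right _ (hcostN.trans e1.le)
      _ = 2 ^ (d + Nat.log 2 N + 3) := by ring
      _ ≤ 2 ^ l := Nat.pow_le_pow_right (by norm_num) (by omega)
  have hb := hH T' hload (fun v hv => by
    rw [hT'eval, hT, hφ2 v hv, not_not])
  rw [hT'cost] at hb
  have e2 : T.cost ≤ M := by
    rw [hM]; exact Nat.le_floor hcost
  omega

end H630DP
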