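import Pool.Agent.H630DP.T5
import Pool.Agent.H630DP.T6
import Pool.Agent.H630DP.T7a

/-!
T7: lower bound for Horn languages.
-/

open scoped Classical
open Finset
namespace H630DP
open H630SD H534R2.Gen

/-- **Lower bound for Horn languages.** -/
theorem horn_low (a c : ℝ) (ha0 : 0 ≤ a) (ha : a < 1) (hc0 : 0 < c) (hc : c < (1 - a) / 28) :
    ∃ N₀ : ℕ, ∀ N : ℕ, N₀ ≤ N → ∀ (ι : Type) (ar : ι → ℕ) (rel : ∀ i, Set (Fin (ar i) → Bool)),
      (∀ f : (Fin 7 → Bool) → Bool, Pol rel f →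
        ∃ I : Finset (Fin 7), I.Nonempty ∧ ∀ x, f x = true ↔ ∀ i ∈ I, x i = true) →
      ∀ (d : ℕ) (T : RT (bits ar (Fin N)) d), (∀ F, T.eval F ↔ ¬ Sat rel F) →
        (T.cost : ℝ) ≤ (N : ℝ) ^ a → (N : ℝ) ^ c < d :=
  horn_low_of (fun _ _ _ φ hφ _ T => dtree_of_RT φ hφ T)
    (fun _ _ _ _ _ t H _ hN hfin hconj => horn_inst t H hN hfin hconj) a c ha0 ha hc0 hc

end H630DP
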