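import Pool.Agent.H630DP.Calc
import Pool.Agent.H630SD.Low

/-! The lower bound for languages that express linear equations (helper630) -/

open scoped Classical
open Finset Filter

namespace H630DP

open H630VC H630XR H630GI H630SD

/-! ### freezing -/

section freeze

variable {I : Type} {inp : Set (I → Prop)} {d : ℕ}

/-- the output function on the branch followed by `c` -/
noncomputable def leafF : RT inp d → I → I → Prop
  | .out f _, _ => f
  | .ask _ f _ next, c => leafF (next fun i => decide (f i c)) c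

/-- some formula that is false at `c`, on the branch followed by `c`, is true at `x` -/
noncomputable def flipF : RT inp d → I → I → Prop
  | .out _ _, _ => fun _ => False
  | .ask _ f _ next, c => fun x => (∃ i, ¬ f i c ∧ f i x) ∨ flipF (next fun i => decide (f i c)) c x

/-- the position of the branch followed by `x` -/
noncomputable def rk : RT inp d → I → ℕ
  | .out _ _, _ => 0
  | .ask _ f _ next, x => (univ.filter fun i => f i x).card * (univ.sup fun a => (next a).cost) +
      rk (next fun i => decide (f i x)) x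

theorem MD.monotone [Preorder I] (hm : ∀ f ∈ inp, Monotone f) {f : I → Prop} {d : ℕ}
    (h : MD inp d f) : Monotone f := by
  induction h with
  | leaf hf => exact hm _ hf
  | and _ _ ih1 ih2 => exact fun x y hxy h => ⟨ih1 hxy h.1, ih2 hxy h.2⟩
  | or _ _ ih1 ih2 =>
    intro x y hxy h
    rcases h with h | h
    · exact Or.inl (ih1 hxy h)
    · exact Or.inr (ih2 hxy h)

theorem cost_pos (T : RT inp d) : 1 ≤ T.cost := by
  induction T with
  | out f h => exact le_rfl
  | ask w f h next ih =>
    have h1 : 1 ≤ (univ.sup fun a => (next a).cost) :=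
      (ih fun _ => false).trans (Finset.le_sup (f := fun a => (next a).cost) (mem_univ _))
    show 1 ≤ (w + 1) * univ.sup fun a => (next a).cost
    nlinarith

theorem eval_of_not_flip [Preorder I] (hm : ∀ f ∈ inp, Monotone f) (T : RT inp d) {c x : I}
    (hcx : c ≤ x) (hfl : ¬ flipF T c x) : T.eval x ↔ leafF T c x := by
  induction T with
  | out f h => exact Iff.rfl
  | ask w f h next ih =>
    have h1 : ∀ i, f i x ↔ f i c := fun i =>
      ⟨fun hx => by
        by_contra hc
        exact hfl (Or.inl ⟨i, hc, hx⟩), fun hc => (h i).monotone hm hcx hc⟩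
    have h2 : (fun i => decide (f i x)) = fun i => decide (f i c) := by
      funext i
      rw [decide_eq_decide]
      exact h1 i
    show (next fun i => decide (f i x)).eval x ↔ leafF (next fun i => decide (f i c)) c x
    rw [h2]
    exact ih _ fun h' => hfl (Or.inr h')

theorem rk_lt (T : RT inp d) (x : I) : rk T x < T.cost := by
  induction T with
  | out f h => exact Nat.one_pos
  | ask w f h next ih =>
    have h1 := ih fun i => decide (f i x)
    have h2 : (next fun i => decide (f i x)).cost ≤ univ.sup fun a => (next a).cost :=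
      Finset.le_sup (f := fun a => (next a).cost) (mem_univ _)
    have h3 : (univ.filter fun i => f i x).card ≤ w := by
      have := card_le_univ (univ.filter fun i => f i x)
      rwa [Fintype.card_fin] at this
    show (univ.filter fun i => f i x).card * (univ.sup fun a => (next a).cost) +
      rk (next fun i => decide (f i x)) x < (w + 1) * univ.sup fun a => (next a).cost
    have h4 : (univ.filter fun i => f i x).card * (univ.sup fun a => (next a).cost) ≤
        w * univ.sup fun a => (next a).cost := Nat.mul_le_mul_right _ h3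
    rw [Nat.succ_mul]
    omega

theorem rk_mono [Preorder I] (hm : ∀ f ∈ inp, Monotone f) (T : RT inp d) {c x : I}
    (hcx : c ≤ x) : rk T c ≤ rk T x ∧ (flipF T c x → rk T c < rk T x) := by
  induction T with
  | out f h => exact ⟨le_rfl, fun h' => h'.elim⟩
  | ask w f h next ih =>
    by_cases hall : ∀ i, f i x → f i c
    · have h1 : ∀ i, f i x ↔ f i c := fun i => ⟨hall i, fun hc => (h i).monotone hm hcx hc⟩
      have h2 : (fun i => decide (f i x)) = fun i => decide (f i c) := by
        funext i
        rw [decide_eq_decide]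
        exact h1 i
      have h3 : (univ.filter fun i => f i x) = univ.filter fun i => f i c := by
        ext i
        simp [h1]
      obtain ⟨i1, i2⟩ := ih fun i => decide (f i c)
      have e1 : rk (RT.ask w f h next) x = (univ.filter fun i => f i c).card *
          (univ.sup fun a => (next a).cost) + rk (next fun i => decide (f i c)) x := by
        show (univ.filter fun i => f i x).card * (univ.sup fun a => (next a).cost) +
          rk (next fun i => decide (f i x)) x = _
        rw [h2, h3]
      have e2 : rk (RT.ask w f h next) c = (univ.filter fun i => f i c).card *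
          (univ.sup fun a => (next a).cost) + rk (next fun i => decide (f i c)) c := rfl
      refine ⟨by omega, fun hf => ?_⟩
      rcases hf with ⟨i, hi, hi'⟩ | hf
      · exact absurd (hall i hi') hi
      · have := i2 hf
        omega
    · push Not at hall
      obtain ⟨i, hi, hi'⟩ := hall
      have h1 : (univ.filter fun i => f i c) ⊂ univ.filter fun i => f i x := by
        refine ⟨fun j hj => mem_filter.2 ⟨mem_univ _, (h j).monotone hm hcx (mem_filter.1 hj).2⟩,
          fun hsub => hi' (mem_filter.1 (hsub (mem_filter.2 ⟨mem_univ _, hi⟩))).2⟩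
      have h2 := card_lt_card h1
      have h3 := rk_lt (next fun i => decide (f i c)) c
      have h4 : (next fun i => decide (f i c)).cost ≤ univ.sup fun a => (next a).cost :=
        Finset.le_sup (f := fun a => (next a).cost) (mem_univ _)
      have h5 : ((univ.filter fun i => f i c).card + 1) * (univ.sup fun a => (next a).cost) ≤
          (univ.filter fun i => f i x).card * (univ.sup fun a => (next a).cost) :=
        Nat.mul_le_mul_right _ h2
      have e1 : rk (RT.ask w f h next) x = (univ.filter fun i => f i x).card *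
          (univ.sup fun a => (next a).cost) + rk (next fun i => decide (f i x)) x := rfl
      have e2 : rk (RT.ask w f h next) c = (univ.filter fun i => f i c).card *
          (univ.sup fun a => (next a).cost) + rk (next fun i => decide (f i c)) c := rfl
      rw [Nat.succ_mul] at h5
      have : rk (RT.ask w f h next) c < rk (RT.ask w f h next) x := by omega
      exact ⟨this.le, fun _ => this⟩

end freeze

/-! ### from formulas to circuits of real gates -/

section prog

variable {I J : Type} {inp : Set (I → Prop)} {pin : Set (J → ℝ)} {d : ℕ}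

theorem prog_of_MD (ψ : J → I) (hψ : ∀ g ∈ inp, (fun x => ind (g (ψ x))) ∈ pin) {f : I → Prop}
    (h : MD inp d f) : ∀ l₀ : List (J → ℝ), Prog pin l₀ → ∃ l, Prog pin l ∧ l₀ ⊆ l ∧
      (fun x => ind (f (ψ x))) ∈ l ∧ l.length + 1 ≤ l₀.length + 2 ^ (d + 1) := by
  induction h with
  | @leaf d f hf =>
    intro l₀ h₀
    refine ⟨_, Prog.input h₀ (hψ f hf), fun g hg => List.mem_cons_of_mem _ hg,
      List.mem_cons_self, ?_⟩
    have : 2 ≤ 2 ^ (d + 1) := by
      calc 2 = 2 ^ 1 := rfl
        _ ≤ 2 ^ (d + 1) := Nat.pow_le_pow_right (by norm_num) (by omega)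
    rw [List.length_cons]
    omega
  | @and d f g _ _ ih1 ih2 =>
    intro l₀ h₀
    obtain ⟨l1, a1, a2, a3, a4⟩ := ih1 l₀ h₀
    obtain ⟨l2, b1, b2, b3, b4⟩ := ih2 l1 a1
    have hmin : Mono2 fun x y : ℝ => min x y := fun x x' y y' hx hy => min_le_min hx hy
    refine ⟨_, Prog.gate (φ := fun x y => min x y) b1 hmin (b2 a3) b3,
      fun g hg => List.mem_cons_of_mem _ (b2 (a2 hg)), ?_, ?_⟩
    · have e : (fun x => ind (f (ψ x) ∧ g (ψ x))) =
          fun x => min (ind (f (ψ x))) (ind (g (ψ x))) := by
        funext x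
        unfold ind
        by_cases h1 : f (ψ x) <;> by_cases h2 : g (ψ x)
        · rw [if_pos ⟨h1, h2⟩, if_pos h1, if_pos h2, min_self]
        · rw [if_neg fun h => h2 h.2, if_pos h1, if_neg h2]; norm_num
        · rw [if_neg fun h => h1 h.1, if_neg h1, if_pos h2]; norm_num
        · rw [if_neg fun h => h1 h.1, if_neg h1, if_neg h2, min_self]
      rw [e]
      exact List.mem_cons_self
    · rw [List.length_cons, pow_succ]
      omega
  | @or d f g _ _ ih1 ih2 =>
    intro l₀ h₀
    obtain ⟨l1, a1, a2, a3, a4⟩ := ih1 l₀ h₀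
    obtain ⟨l2, b1, b2, b3, b4⟩ := ih2 l1 a1
    have hmax : Mono2 fun x y : ℝ => max x y := fun x x' y y' hx hy => max_le_max hx hy
    refine ⟨_, Prog.gate (φ := fun x y => max x y) b1 hmax (b2 a3) b3,
      fun g hg => List.mem_cons_of_mem _ (b2 (a2 hg)), ?_, ?_⟩
    · have e : (fun x => ind (f (ψ x) ∨ g (ψ x))) =
          fun x => max (ind (f (ψ x))) (ind (g (ψ x))) := by
        funext x
        unfold ind
        by_cases h1 : f (ψ x) <;> by_cases h2 : g (ψ x)
        · rw [if_pos (Or.inl h1), if_pos h1, if_pos h2, max_self]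
        · rw [if_pos (Or.inl h1), if_pos h1, if_neg h2]; norm_num
        · rw [if_pos (Or.inr h2), if_neg h1, if_pos h2]; norm_num
        · rw [if_neg (not_or.2 ⟨h1, h2⟩), if_neg h1, if_neg h2, max_self]
      rw [e]
      exact List.mem_cons_self
    · rw [List.length_cons, pow_succ]
      omega

/-- a disjunction -/
theorem prog_or {p q : J → Prop} {l : List (J → ℝ)} (h : Prog pin l) (hp : (fun x => ind (p x)) ∈ l)
    (hq : (fun x => ind (q x)) ∈ l) : Prog pin ((fun x => ind (p x ∨ q x)) :: l) := by
  have hmax : Mono2 fun x y : ℝ => max x y := fun x x' y y' hx hy => max_le_max hx hy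
  have e : (fun x => ind (p x ∨ q x)) = fun x => max (ind (p x)) (ind (q x)) := by
    funext x
    unfold ind
    by_cases h1 : p x <;> by_cases h2 : q x
    · rw [if_pos (Or.inl h1), if_pos h1, if_pos h2, max_self]
    · rw [if_pos (Or.inl h1), if_pos h1, if_neg h2]; norm_num
    · rw [if_pos (Or.inr h2), if_neg h1, if_pos h2]; norm_num
    · rw [if_neg (not_or.2 ⟨h1, h2⟩), if_neg h1, if_neg h2, max_self]
  rw [e]
  exact Prog.gate (φ := fun x y => max x y) h hmax hp hq

theorem prog_bigor (ψ : J → I) (hψ : ∀ g ∈ inp, (fun x => ind (g (ψ x))) ∈ pin)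
    (h0 : (fun _ => (0 : ℝ)) ∈ pin) {w : ℕ} (f : Fin w → I → Prop) (hf : ∀ i, MD inp d (f i))
    (s : Finset (Fin w)) : ∀ l₀ : List (J → ℝ), Prog pin l₀ → ∃ l, Prog pin l ∧ l₀ ⊆ l ∧
      (fun x => ind (∃ i ∈ s, f i (ψ x))) ∈ l ∧ l.length ≤ l₀.length + s.card * 2 ^ (d + 1) + 1 := by
  induction s using Finset.induction_on with
  | empty =>
    intro l₀ h₀
    refine ⟨_, Prog.input h₀ h0, fun g hg => List.mem_cons_of_mem _ hg, ?_, by simp⟩
    have e : (fun x => ind (∃ i ∈ (∅ : Finset (Fin w)), f i (ψ x))) = fun _ : J => (0 : ℝ) := by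
      funext x
      exact if_neg (by simp)
    rw [e]
    exact List.mem_cons_self
  | insert j s hj ih =>
    intro l₀ h₀
    obtain ⟨l1, a1, a2, a3, a4⟩ := ih l₀ h₀
    obtain ⟨l2, b1, b2, b3, b4⟩ := prog_of_MD ψ hψ (hf j) l1 a1
    refine ⟨_, prog_or b1 b3 (b2 a3), fun g hg => List.mem_cons_of_mem _ (b2 (a2 hg)), ?_, ?_⟩
    · have e : (fun x => ind (∃ i ∈ insert j s, f i (ψ x))) =
          fun x => ind (f j (ψ x) ∨ ∃ i ∈ s, f i (ψ x)) := by
        funext x
        apply ind_congr
        simp
      rw [e]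
      exact List.mem_cons_self
    · rw [List.length_cons, card_insert_of_notMem hj, Nat.succ_mul]
      omega

/-- the frozen computation -/
theorem prog_frozen (ψ : J → I) (hψ : ∀ g ∈ inp, (fun x => ind (g (ψ x))) ∈ pin)
    (h0 : (fun _ => (0 : ℝ)) ∈ pin) (c : I) (T : RT inp d) :
    ∀ l₀ : List (J → ℝ), Prog pin l₀ → ∃ l, Prog pin l ∧
      (fun x => ind (leafF T c (ψ x) ∨ flipF T c (ψ x))) ∈ l ∧
      l.length ≤ l₀.length + T.cost * 2 ^ (d + 2) := by
  induction T with
  | out f h =>
    intro l₀ h₀
    obtain ⟨l1, a1, a2, a3, a4⟩ := prog_of_MD ψ hψ h l₀ h₀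
    refine ⟨l1, a1, ?_, ?_⟩
    · have e : (fun x => ind (leafF (RT.out f h) c (ψ x) ∨ flipF (RT.out f h) c (ψ x))) =
          fun x => ind (f (ψ x)) := by
        funext x
        apply ind_congr
        exact ⟨fun h => h.elim id False.elim, Or.inl⟩
      rw [e]
      exact a3
    · show l1.length ≤ l₀.length + 1 * 2 ^ (d + 2)
      have : 2 ^ (d + 2) = 2 ^ (d + 1) * 2 := pow_succ _ _
      omega
  | ask w f h next ih =>
    intro l₀ h₀
    obtain ⟨l1, a1, a3, a4⟩ := ih (fun i => decide (f i c)) l₀ h₀
    have hsup : (next fun i => decide (f i c)).cost ≤ univ.sup fun a => (next a).cost :=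
      Finset.le_sup (f := fun a => (next a).cost) (mem_univ _)
    have hsup1 := (cost_pos (next fun i => decide (f i c))).trans hsup
    set S := univ.sup fun a => (next a).cost with hS
    have hcost : (RT.ask w f h next).cost = (w + 1) * S := rfl
    have h5 : (next fun i => decide (f i c)).cost * 2 ^ (d + 2) ≤ S * 2 ^ (d + 2) :=
      Nat.mul_le_mul_right _ hsup
    rcases Nat.eq_zero_or_pos w with hw | hw
    · subst hw
      refine ⟨l1, a1, ?_, ?_⟩
      · have e : (fun x => ind (leafF (RT.ask 0 f h next) c (ψ x) ∨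
            flipF (RT.ask 0 f h next) c (ψ x))) =
            fun x => ind (leafF (next fun i => decide (f i c)) c (ψ x) ∨
              flipF (next fun i => decide (f i c)) c (ψ x)) := by
          funext x
          apply ind_congr
          refine or_congr Iff.rfl ⟨fun h => ?_, Or.inr⟩
          rcases h with ⟨i, _⟩ | h
          · exact i.elim0
          · exact h
        rw [e]
        exact a3
      · rw [hcost]
        simp only [zero_add, one_mul]
        omega
    · obtain ⟨l2, b1, b2, b3, b4⟩ := prog_bigor ψ hψ h0 f h (univ.filter fun i => ¬ f i c) l1 a1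
      refine ⟨_, prog_or b1 b3 (b2 a3), ?_, ?_⟩
      · have e : (fun x => ind (leafF (RT.ask w f h next) c (ψ x) ∨
            flipF (RT.ask w f h next) c (ψ x))) =
            fun x => ind ((∃ i ∈ univ.filter (fun i => ¬ f i c), f i (ψ x)) ∨
              (leafF (next fun i => decide (f i c)) c (ψ x) ∨
              flipF (next fun i => decide (f i c)) c (ψ x))) := by
          funext x
          apply ind_congr
          show leafF (next fun i => decide (f i c)) c (ψ x) ∨ ((∃ i, ¬ f i c ∧ f i (ψ x)) ∨
            flipF (next fun i => decide (f i c)) c (ψ x)) ↔ _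
          constructor
          · rintro (h1 | ⟨i, h1, h2⟩ | h1)
            · exact Or.inr (Or.inl h1)
            · exact Or.inl ⟨i, mem_filter.2 ⟨mem_univ _, h1⟩, h2⟩
            · exact Or.inr (Or.inr h1)
          · rintro (⟨i, h1, h2⟩ | h1 | h1)
            · exact Or.inr (Or.inl ⟨i, (mem_filter.1 h1).2, h2⟩)
            · exact Or.inl h1
            · exact Or.inr (Or.inr h1)
        rw [e]
        exact List.mem_cons_self
      · have h6 : (univ.filter fun i => ¬ f i c).card ≤ w := by
          have := card_le_univ (univ.filter fun i => ¬ f i c)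
          rwa [Fintype.card_fin] at this
        have h7 : (univ.filter fun i => ¬ f i c).card * 2 ^ (d + 1) ≤ w * 2 ^ (d + 1) :=
          Nat.mul_le_mul_right _ h6
        have h8 : 2 ^ (d + 2) = 2 ^ (d + 1) * 2 := pow_succ _ _
        have h9 : 2 ≤ 2 ^ (d + 1) := by
          calc 2 = 2 ^ 1 := rfl
            _ ≤ 2 ^ (d + 1) := Nat.pow_le_pow_right (by norm_num) (by omega)
        have h10 : w * 2 ^ (d + 1) + 2 ≤ w * S * 2 ^ (d + 2) := by
          have : w * 1 * 2 ^ (d + 2) ≤ w * S * 2 ^ (d + 2) :=
            Nat.mul_le_mul_right _ (Nat.mul_le_mul_left _ hsup1)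
          have h11 : w * 1 * 2 ^ (d + 2) = w * 2 ^ (d + 1) + w * 2 ^ (d + 1) := by
            rw [h8]; ring
          have h12 : 2 ≤ w * 2 ^ (d + 1) := by nlinarith
          omega
        have h13 : (w + 1) * S * 2 ^ (d + 2) = w * S * 2 ^ (d + 2) + S * 2 ^ (d + 2) := by ring
        rw [List.length_cons, hcost, h13]
        omega

end prog

/-! ### the walk -/

variable {ι : Type} {ar : ι → ℕ} {rel : ∀ i, Set (Fin (ar i) → Bool)} {k b N : ℕ}

theorem bits_monotone (V : Type) (f : Set (Con ar V) → Prop) (hf : f ∈ bits ar V) :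
    Monotone f := by
  rcases hf with ⟨c, rfl⟩ | ⟨p, rfl⟩
  · exact fun F G hFG h => hFG h
  · exact fun F G _ h => h

theorem inst_mono (e : Wv k b → Fin N) {F G : BF k b 4} (h : ∀ j, F j ⊆ G j) :
    inst rel e F ≤ inst rel e G := by
  rintro C ⟨m, c, hc, hC⟩
  exact ⟨m, c, h m hc, hC⟩

theorem ctx_sub (y : Fin k → Fin b → Bool) (i : ℕ) (j : Fin k) :
    (ctx y i : BF k b 4) j ⊆ ctx y (i + 1) j := by
  unfold ctx
  by_cases h : j.1 < i
  · rw [if_pos h, if_pos (by omega)]
  · rw [if_neg h]; exact empty_subset _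

theorem ctx_upd_sub (y : Fin k → Fin b → Bool) (i : Fin k) (F : Finset (Cl (Fin b) 4))
    (j : Fin k) : (ctx y i.1 : BF k b 4) j ⊆ upd y i F j := by
  rw [← upd_empty]
  unfold upd
  by_cases h : j = i
  · subst h
    simp
  · simp [Function.update_of_ne h]

theorem walkT (hE : ¬ Easy rel) (hb : 1 ≤ b) (κ S : ℝ) (m d : ℕ)
    (hd : ∀ l : List (Finset (Cl (Fin b) 4) → ℝ), Prog (orCnf b 4) l →
      (l.length : ℝ) ≤ S → ∀ f ∈ l,
      avg (fun ω : Fin m → Cl (Fin b) 4 => ind (1 ≤ f (univ.image ω))) ≤
        κ + avg fun z : Fin b → Bool => ind (1 ≤ f (oddFormula z)))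
    (hN : k * (b + 4096 * b ^ 4) ≤ N)
    (T : RT (bits ar (Fin N)) d) (hT : ∀ F, T.eval F ↔ ¬ Sat rel F)
    (hS : ((T.cost * 2 ^ (d + 2) : ℕ) : ℝ) ≤ S) :
    (k : ℝ) ≤ k * κ + T.cost + k * (2 ^ b / 2 ^ m) := by
  have hcard : Fintype.card (Wv k b) ≤ Fintype.card (Fin N) := by
    rw [card_wv, Fintype.card_fin]
    exact hN
  obtain ⟨e⟩ := Function.Embedding.nonempty_of_card_le hcard
  have hne : Nonempty (Fin m → Cl (Fin b) 4) := ⟨fun _ _ => (⟨0, hb⟩, true)⟩
  set U : Finset (Cl (Fin b) 4) → Prop :=
    fun F => ¬ ∃ z : Fin b → Bool, ∀ c ∈ F, OddSat z c with hU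
  -- one step of the walk
  have step : ∀ (y : Fin k → Fin b → Bool) (i : Fin k),
      (1 : ℝ) - 2 ^ b / 2 ^ m ≤ κ + avg fun z : Fin b → Bool =>
        ind (flipF T (inst rel e (ctx y i.1)) (inst rel e (upd y i (oddFormula z)))) := by
    intro y i
    set c := inst rel e (ctx y i.1) with hc
    have hψ : ∀ g ∈ bits ar (Fin N), (fun F : Finset (Cl (Fin b) 4) =>
        ind (g (inst rel e (upd y i F)))) ∈ orCnf b 4 := by
      intro g hg
      have h1 : (fun F => ind (g F)) ∈ conInputs ar (Fin N) := by
        rcases hg with ⟨C, rfl⟩ | ⟨p, rfl⟩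
        · exact Or.inl ⟨C, rfl⟩
        · exact Or.inr ⟨ind p, rfl⟩
      exact or_upd y i _ (inst_inputs (rel := rel) e _ h1)
    obtain ⟨l, g1, g2, g3⟩ := prog_frozen (fun F => inst rel e (upd y i F)) hψ (Or.inr ⟨0, rfl⟩)
      c T [] Prog.nil
    have hlen : (l.length : ℝ) ≤ S := by
      refine le_trans ?_ hS
      rw [List.length_nil, zero_add] at g3
      exact_mod_cast g3
    have h2 := hd l g1 hlen _ g2
    have one_le : ∀ p : Prop, ind (1 ≤ ind p) = ind p := by
      intro p
      unfold ind
      by_cases hp : p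
      · rw [if_pos hp, if_pos le_rfl]
      · rw [if_neg hp, if_neg (by norm_num)]
    simp only [one_le] at h2
    have h3 : (1 : ℝ) - 2 ^ b / 2 ^ m ≤ avg (fun ω : Fin m → Cl (Fin b) 4 =>
        ind (leafF T c (inst rel e (upd y i (univ.image ω))) ∨
          flipF T c (inst rel e (upd y i (univ.image ω))))) := by
      have h4 := avg_sat (K := 4) (by norm_num) hb m
      have h5 : avg (fun ω : Fin m → Cl (Fin b) 4 => (1 : ℝ) + (-1) * ind (¬ U (univ.image ω))) ≤
          avg (fun ω : Fin m → Cl (Fin b) 4 =>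
            ind (leafF T c (inst rel e (upd y i (univ.image ω))) ∨
            flipF T c (inst rel e (upd y i (univ.image ω))))) := by
        apply avg_mono
        intro ω
        by_cases hUω : U (univ.image ω)
        · have : ind (¬ U (univ.image ω)) = 0 := if_neg (not_not.2 hUω)
          rw [this]
          have h6 : T.eval (inst rel e (upd y i (univ.image ω))) := by
            rw [hT]
            intro hs
            have h7 := odd_of_sat hE e (upd y i (univ.image ω)) hs i
            have h8 : (upd y i (univ.image ω) : BF k b 4) i = univ.image ω := by simp [upd]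
            rw [h8] at h7
            exact hUω h7
          have h9 : leafF T c (inst rel e (upd y i (univ.image ω))) ∨
              flipF T c (inst rel e (upd y i (univ.image ω))) := by
            by_cases hfl : flipF T c (inst rel e (upd y i (univ.image ω)))
            · exact Or.inr hfl
            · exact Or.inl ((eval_of_not_flip (bits_monotone (Fin N)) T
                (inst_mono e (ctx_upd_sub y i _)) hfl).1 h6)
          have h10 : ind (leafF T c (inst rel e (upd y i (univ.image ω))) ∨
              flipF T c (inst rel e (upd y i (univ.image ω)))) = 1 := if_pos h9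
          rw [h10]
          norm_num
        · have : ind (¬ U (univ.image ω)) = 1 := if_pos hUω
          rw [this]
          have := ind_nonneg (leafF T c (inst rel e (upd y i (univ.image ω))) ∨
              flipF T c (inst rel e (upd y i (univ.image ω))))
          linarith
      rw [avg_add, avg_const] at h5
      have h11 : avg (fun ω : Fin m → Cl (Fin b) 4 => (-1 : ℝ) * ind (¬ U (univ.image ω))) =
          -avg (fun ω : Fin m → Cl (Fin b) 4 => ind (¬ U (univ.image ω))) := by
        unfold avg
        rw [← Finset.mul_sum]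
        ring
      rw [h11] at h5
      have h12 : avg (fun ω : Fin m → Cl (Fin b) 4 => ind (¬ U (univ.image ω))) ≤
          2 ^ b / 2 ^ m := h4
      linarith
    refine h3.trans (h2.trans (add_le_add_right (avg_mono fun z => ?_) κ))
    apply ind_mono
    rintro (h | h)
    · by_contra hfl
      have h6 := (eval_of_not_flip (bits_monotone (Fin N)) T
        (inst_mono e (ctx_upd_sub y i (oddFormula z))) hfl).2 h
      rw [hT] at h6
      apply h6
      refine sat_of_odd e e.injective _ (Function.update y i z) fun j c hc => ?_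
      by_cases hj : j = i
      · subst hj
        have : (upd y j (oddFormula z) : BF k b 4) j = oddFormula z := by simp [upd]
        rw [this] at hc
        rw [Function.update_self]
        exact (mem_filter.1 hc).2
      · have : (upd y i (oddFormula z) : BF k b 4) j = ctx y i.1 j := by
          simp [upd, Function.update_of_ne hj]
        rw [this] at hc
        rw [Function.update_of_ne hj]
        unfold ctx at hc
        by_cases hj' : j.1 < i.1
        · rw [if_pos hj'] at hc
          exact (mem_filter.1 hc).2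
        · rw [if_neg hj'] at hc
          exact absurd hc (Finset.notMem_empty c)
    · exact h
  -- the sum over the steps
  have hsum : ∑ i : Fin k, ((1 : ℝ) - 2 ^ b / 2 ^ m) ≤ ∑ i : Fin k, (κ +
      avg fun y : Fin k → Fin b → Bool =>
        ind (flipF T (inst rel e (ctx y i.1)) (inst rel e (ctx y (i.1 + 1))))) := by
    apply Finset.sum_le_sum
    intro i _
    have h1 := avg_mono fun y : Fin k → Fin b → Bool => step y i
    rw [avg_const, avg_add, avg_const] at h1
    refine h1.trans (add_le_add_right (le_of_eq ?_) κ)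
    have h3 := resample (Z := Fin b → Bool) i (fun y z =>
      ind (flipF T (inst rel e (ctx y i.1)) (inst rel e (upd y i (oddFormula z))))) ?_
    · rw [h3]
      simp only [upd_odd]
    · intro y z w
      have e1 : (ctx (Function.update y i z) i.1 : BF k b 4) = ctx y i.1 := by
        rw [← upd_empty, ← upd_empty, upd_update]
      simp only [upd_update, e1]
  rw [sum_const, card_univ, Fintype.card_fin, nsmul_eq_mul, Finset.sum_add_distrib, sum_const,
    card_univ, Fintype.card_fin, nsmul_eq_mul, ← avg_sum] at hsum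
  have hflips : avg (fun y : Fin k → Fin b → Bool => ∑ i : Fin k,
      ind (flipF T (inst rel e (ctx y i.1)) (inst rel e (ctx y (i.1 + 1))))) ≤ T.cost := by
    calc _ ≤ avg (fun _ : Fin k → Fin b → Bool => (T.cost : ℝ)) := by
          apply avg_mono
          intro y
          have key : ∀ n : ℕ, ∑ i ∈ range n, ind (flipF T (inst rel e (ctx y i))
              (inst rel e (ctx y (i + 1)))) ≤ (rk T (inst rel e (ctx y n)) : ℝ) := by
            intro n
            induction n with
            | zero => simp
            | succ n ih =>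
              rw [sum_range_succ]
              obtain ⟨h1, h2⟩ := rk_mono (bits_monotone (Fin N)) T
                (inst_mono (rel := rel) e (ctx_sub y n))
              by_cases h : flipF T (inst rel e (ctx y n)) (inst rel e (ctx y (n + 1)))
              · have h3 : ((rk T (inst rel e (ctx y n)) + 1 : ℕ) : ℝ) ≤
                    (rk T (inst rel e (ctx y (n + 1))) : ℝ) := by exact_mod_cast h2 h
                push_cast at h3
                have := ind_le_one (flipF T (inst rel e (ctx y n)) (inst rel e (ctx y (n + 1))))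
                linarith
              · have h3 : ind (flipF T (inst rel e (ctx y n)) (inst rel e (ctx y (n + 1)))) = 0 :=
                  if_neg h
                have h4 : (rk T (inst rel e (ctx y n)) : ℝ) ≤
                    (rk T (inst rel e (ctx y (n + 1))) : ℝ) := by exact_mod_cast h1
                linarith
          have h1 := key k
          rw [Fin.sum_univ_eq_sum_range
            (fun i => ind (flipF T (inst rel e (ctx y i)) (inst rel e (ctx y (i + 1))))) k]
          refine h1.trans ?_
          exact_mod_cast (rk_lt T _).le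
      _ = _ := avg_const _
  linarith

/-- the lower bound for languages that are not easy -/
theorem xor_low (a c : ℝ) (ha0 : 0 ≤ a) (ha : a < 1) (hc0 : 0 < c) (hc : c < (1 - a) / 52) :
    ∃ N₀ : ℕ, ∀ N : ℕ, N₀ ≤ N → ∀ (ι : Type) (ar : ι → ℕ) (rel : ∀ i, Set (Fin (ar i) → Bool)),
      ¬ Easy rel → ∀ (d : ℕ) (T : RT (bits ar (Fin N)) d), (∀ F, T.eval F ↔ ¬ Sat rel F) →
        (T.cost : ℝ) ≤ (N : ℝ) ^ a → (N : ℝ) ^ c < d := by
  obtain ⟨c', hc1, hc2⟩ := exists_between hc
  have hc0' : 0 < c' := hc0.trans hc1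
  set ρ : ℝ := 52 * c' / (1 - a) with hρ
  have h1a : 0 < 1 - a := by linarith
  have hρ0 : 0 < ρ := by positivity
  have hρ1 : ρ < 1 := by
    rw [hρ, div_lt_one h1a]
    linarith
  set θ : ℝ := (1 + ρ) / 2 with hθ
  have hθ1 : θ < 1 := by rw [hθ]; linarith
  have hθ0 : 0 < θ := by rw [hθ]; linarith
  have hθρ : ρ < θ * θ := by
    have : θ * θ - ρ = ((1 - ρ) / 2) * ((1 - ρ) / 2) := by rw [hθ]; ring
    have h2 : 0 < ((1 - ρ) / 2) * ((1 - ρ) / 2) := by
      have : 0 < (1 - ρ) / 2 := by linarith
      positivity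
    linarith
  set ε : ℝ := (1 - a) / 4 * θ with hε
  set ν : ℝ := θ / 13 with hν
  set δ : ℝ := (13 * ν + 1) / 2 with hδ
  have hε0 : 0 < ε := by positivity
  have hν0 : 0 < ν := by positivity
  have hν13 : ν < 1 / 13 := by rw [hν]; linarith
  have hδ1 : δ < 1 := by rw [hδ]; linarith
  have hδ2 : (3 * ((4 : ℕ) : ℝ) + 1) * ν < δ := by rw [hδ]; push_cast; linarith
  have h4 : a < 1 - 4 * ε := by
    have : 4 * ε = (1 - a) * θ := by rw [hε]; ring
    rw [this]
    nlinarith
  have hcε : c' < ε * ν := by
    have e1 : ε * ν = (1 - a) / 52 * (θ * θ) := by rw [hε, hν]; ring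
    have e2 : c' = (1 - a) / 52 * ρ := by rw [hρ]; field_simp
    rw [e1, e2]
    exact mul_lt_mul_of_pos_left hθρ (by positivity)
  obtain ⟨N₁, hN₁⟩ := dich_ind 4 (by norm_num) δ ν hν0 hδ2
  obtain ⟨N₂, hN₂⟩ := choose_params a c' (1 / 2) ε ν δ N₁ ha0 hc0' (by norm_num) hε0 hν0
    (by linarith) hδ1 h4 hcε
  -- `N * 2 ^ (N ^ c + 2) ≤ 2 ^ (N ^ c')` for large `N`
  have ev : ∀ᶠ N : ℕ in atTop, (N : ℝ) ^ c + 2 + Real.logb 2 N ≤ (N : ℝ) ^ c' := by
    have t1 : ∀ᶠ N : ℕ in atTop, (4 : ℝ) ≤ (N : ℝ) ^ (c' - c) :=
      ((tendsto_rpow_atTop (by linarith : 0 < c' - c)).comp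
        tendsto_natCast_atTop_atTop).eventually_ge_atTop 4
    have t2 : ∀ᶠ N : ℕ in atTop, (4 : ℝ) ≤ (N : ℝ) ^ c' :=
      ((tendsto_rpow_atTop hc0').comp tendsto_natCast_atTop_atTop).eventually_ge_atTop 4
    have t3 : ∀ᶠ N : ℕ in atTop, Real.log N ≤ (Real.log 2 / 4) * (N : ℝ) ^ c' := by
      have h := (isLittleO_log_rpow_atTop hc0').bound
        (show (0 : ℝ) < Real.log 2 / 4 by have := Real.log_pos (by norm_num : (1:ℝ) < 2); positivity)
      have h' := tendsto_natCast_atTop_atTop.eventually h
      filter_upwards [h', eventually_ge_atTop 1] with N hN hN1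
      have hN1' : (1 : ℝ) ≤ N := by exact_mod_cast hN1
      rw [Real.norm_of_nonneg (Real.log_nonneg hN1'), Real.norm_of_nonneg (by positivity)] at hN
      exact hN
    filter_upwards [t1, t2, t3, eventually_ge_atTop 1] with N h1 h2 h3 hN1
    have hN1' : (1 : ℝ) ≤ N := by exact_mod_cast hN1
    have hN0 : (0 : ℝ) < N := by linarith
    have e1 : (N : ℝ) ^ c' = (N : ℝ) ^ c * (N : ℝ) ^ (c' - c) := by
      rw [← Real.rpow_add hN0]
      congr 1
      ring
    have e2 : (N : ℝ) ^ c * 4 ≤ (N : ℝ) ^ c' := by
      rw [e1]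
      exact mul_le_mul_of_nonneg_left h1 (by positivity)
    have hl2 := Real.log_pos (by norm_num : (1:ℝ) < 2)
    have e3 : Real.logb 2 N ≤ (N : ℝ) ^ c' / 4 := by
      unfold Real.logb
      rw [div_le_iff₀ hl2]
      linarith
    linarith
  obtain ⟨N₃, hN₃⟩ := eventually_atTop.1 ev
  refine ⟨max (max N₂ N₃) 1, fun N hN ι ar rel hE d T hT hcost => ?_⟩
  obtain ⟨b, k, g1, g2, g3, g4, g5, g6, g7, g8, g9⟩ := hN₂ N (by omega)
  by_contra hcon
  push Not at hcon
  have hN1 : (1 : ℝ) ≤ N := by
    have : 1 ≤ N := by omega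
    exact_mod_cast this
  have hN0 : (0 : ℝ) < N := by linarith
  have hS : ((T.cost * 2 ^ (d + 2) : ℕ) : ℝ) ≤ 2 ^ ((N : ℝ) ^ c') + 2 := by
    have h5 := hN₃ N (by omega)
    have h6 : (N : ℝ) ^ a ≤ N := by
      calc (N : ℝ) ^ a ≤ (N : ℝ) ^ (1 : ℝ) := Real.rpow_le_rpow_of_exponent_le hN1 ha.le
        _ = N := Real.rpow_one _
    have h7 : ((2 : ℝ) ^ (d + 2)) = 2 ^ ((d : ℝ) + 2) := by
      rw [← Real.rpow_natCast]
      push_cast
      rfl
    have h8 : (N : ℝ) = 2 ^ (Real.logb 2 N) := by
      rw [Real.rpow_logb (by norm_num) (by norm_num) hN0]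
    calc ((T.cost * 2 ^ (d + 2) : ℕ) : ℝ) = T.cost * 2 ^ ((d : ℝ) + 2) := by
          push_cast
          rw [h7]
      _ ≤ N * 2 ^ ((N : ℝ) ^ c + 2) := by
          apply mul_le_mul (hcost.trans h6) _ (by positivity) (by positivity)
          exact Real.rpow_le_rpow_of_exponent_le (by norm_num) (by linarith)
      _ = 2 ^ (Real.logb 2 N) * 2 ^ ((N : ℝ) ^ c + 2) := by rw [← h8]
      _ = 2 ^ (Real.logb 2 N + ((N : ℝ) ^ c + 2)) := by
          rw [← Real.rpow_add (by norm_num)]
      _ ≤ 2 ^ ((N : ℝ) ^ c') := Real.rpow_le_rpow_of_exponent_le (by norm_num) (by linarith)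
      _ ≤ _ := by linarith
  have hd : ∀ l : List (Finset (Cl (Fin b) 4) → ℝ), Prog (orCnf b 4) l →
      (l.length : ℝ) ≤ 2 ^ ((N : ℝ) ^ c') + 2 → ∀ f ∈ l,
      avg (fun ω : Fin (2 * b) → Cl (Fin b) 4 => ind (1 ≤ f (univ.image ω))) ≤
        (b : ℝ) ^ (-ν) + avg fun z : Fin b → Bool => ind (1 ≤ f (oddFormula z)) := by
    intro l hl hlen f hf
    obtain ⟨l', h1, h2, h3⟩ := expand hl
    refine hN₁ b g1 (2 * b) g5 l' h1 ?_ f (h2 hf)
    have e1 : Fintype.card (Cl (Fin b) 4) = 16 * b ^ 4 := by rw [card_cl]; ring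
    rw [e1] at h3
    have h4 : (l'.length : ℝ) ≤ l.length * (2 * (16 * b ^ 4) + 1) := by exact_mod_cast h3
    have hb1 : (1 : ℝ) ≤ (b : ℝ) ^ 4 := one_le_pow₀ (by exact_mod_cast g2)
    refine h4.trans (le_trans ?_ g6)
    apply mul_le_mul hlen (by linarith) (by positivity) (by positivity)
  have hw := walkT hE g2 ((b : ℝ) ^ (-ν)) (2 ^ ((N : ℝ) ^ c') + 2) (2 * b) d hd g4 T hT hS
  have hk0 : (0 : ℝ) < k := by exact_mod_cast g3
  have j1 : (k : ℝ) * (b : ℝ) ^ (-ν) ≤ k * (1 / 2 / 2) := mul_le_mul_of_nonneg_left g7 hk0.le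
  have j2 : (k : ℝ) * ((2 : ℝ) ^ b / 2 ^ (2 * b)) ≤ k * (1 / 2 / 2) :=
    mul_le_mul_of_nonneg_left g9 hk0.le
  nlinarith

end H630DP
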